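import Mathlib

/-!
Continuous Hochschild cohomology with symmetric coefficients, in explicit form.
-/

namespace Pool.Agent.Helper5.Sym

universe u v

/-- Multiply the neighbouring entries `i` and `i + 1` (counting from `0`):
`(a₀, …, aₙ) ↦ (a₀, …, aᵢ aᵢ₊₁, …, aₙ)`. -/
def mergeAt {A : Type u} [Mul A] {n : ℕ} (i : ℕ) (a : Fin (n + 1) → A) : Fin n → A := fun k =>
  if (k : ℕ) < i then a k.castSucc
  else if (k : ℕ) = i then a k.castSucc * a k.succ
  else a k.succ

/-- `f` is an `n`-cochain: a bounded `n`-linear map from `A × ⋯ × A` to `X`. -/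
structure IsCochain {A : Type u} [NormedRing A] [NormedAlgebra ℂ A]
    {X : Type v} [NormedAddCommGroup X] [NormedSpace ℂ X] (n : ℕ)
    (f : (Fin n → A) → X) : Prop where
  map_add : ∀ (a : Fin n → A) (i : Fin n) (x y : A),
    f (Function.update a i (x + y)) = f (Function.update a i x) + f (Function.update a i y)
  map_smul : ∀ (a : Fin n → A) (i : Fin n) (c : ℂ) (x : A),
    f (Function.update a i (c • x)) = c • f (Function.update a i x)
  bounded : ∃ C : ℝ, ∀ a : Fin n → A, ‖f a‖ ≤ C * ∏ i, ‖a i‖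

/-- The Hochschild coboundary of an `n`-cochain `f` with values in the symmetric bimodule `X`
(with `a · x = x · a = act a x`), evaluated at `a = (a₀, …, aₙ)`:
`a₀ · f(a₁, …, aₙ) + ∑ᵢ (-1)^(i+1) f(a₀, …, aᵢ aᵢ₊₁, …, aₙ) + (-1)^(n+1) f(a₀, …, aₙ₋₁) · aₙ`. -/
noncomputable def coboundary {A : Type u} [NormedRing A] [NormedAlgebra ℂ A]
    {X : Type v} [NormedAddCommGroup X] [NormedSpace ℂ X] (act : A → X → X) {n : ℕ}
    (f : (Fin n → A) → X) (a : Fin (n + 1) → A) : X :=
  act (a 0) (f fun k => a k.succ) +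
    ∑ i ∈ Finset.range n, (-1 : ℂ) ^ (i + 1) • f (mergeAt i a) +
    (-1 : ℂ) ^ (n + 1) • act (a (Fin.last n)) (f fun k => a k.castSucc)

/-- `X` is a symmetric unital Banach `A`-bimodule (`A` commutative and unital), the common left
and right action of `a` on `x` being `act a x`. -/
structure IsSymBimodule {A : Type u} [NormedCommRing A] [NormedAlgebra ℂ A]
    {X : Type v} [NormedAddCommGroup X] [NormedSpace ℂ X] (act : A → X → X) : Prop where
  add_left : ∀ a b x, act (a + b) x = act a x + act b x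
  smul_left : ∀ (c : ℂ) a x, act (c • a) x = c • act a x
  add_right : ∀ a x y, act a (x + y) = act a x + act a y
  smul_right : ∀ (c : ℂ) a x, act a (c • x) = c • act a x
  mul_act : ∀ a b x, act (a * b) x = act a (act b x)
  one_act : ∀ x, act 1 x = x
  bounded : ∃ C : ℝ, ∀ a x, ‖act a x‖ ≤ C * ‖a‖ * ‖x‖

/-- The cohomology group `H^n(A, X)` vanishes: every bounded `n`-cocycle is the coboundary of a
bounded `(n - 1)`-cochain (and is zero, if `n = 0`). -/
def CohomologyVanishes {A : Type u} [NormedRing A] [NormedAlgebra ℂ A]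
    {X : Type v} [NormedAddCommGroup X] [NormedSpace ℂ X] (act : A → X → X) : ℕ → Prop
  | 0 => ∀ f : (Fin 0 → A) → X, IsCochain 0 f → (∀ a, coboundary act f a = 0) → ∀ a, f a = 0
  | n + 1 => ∀ f : (Fin (n + 1) → A) → X, IsCochain (n + 1) f →
      (∀ a, coboundary act f a = 0) →
        ∃ g : (Fin n → A) → X, IsCochain n g ∧ ∀ a, coboundary act g a = f a

end Pool.Agent.Helper5.Sym
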