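import Mathlib
import Pool.Agent.Helper5.Sym.Defs

/-!
Combinatorics of the bar differential.
-/

namespace Pool.Agent.Helper5.Sym

open Finset

noncomputable section

/-- Restriction of an infinite sequence. -/
def res {α : Type*} (n : ℕ) (x : ℕ → α) : Fin n → α := fun k => x k

lemma res_update {α : Type*} {n : ℕ} (x : ℕ → α) {i : ℕ} (hi : i < n) (z : α) :
    res n (Function.update x i z) = Function.update (res n x) ⟨i, hi⟩ z := by
  funext k
  unfold res
  by_cases h : k = ⟨i, hi⟩
  · subst h
    simp
  · rw [Function.update_of_ne h, Function.update_of_ne]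
    intro h'
    exact h (Fin.ext h')

lemma exists_res {α : Type*} [Nonempty α] {n : ℕ} (a : Fin n → α) : ∃ x : ℕ → α, a = res n x := by
  refine ⟨fun k => if h : k < n then a ⟨k, h⟩ else Classical.arbitrary α, ?_⟩
  funext k
  simp [res]

section Merge

variable {A : Type*} [Mul A]

/-- Merging for infinite sequences. -/
def mergeN (i : ℕ) (x : ℕ → A) : ℕ → A := fun k =>
  if k < i then x k else if k = i then x k * x (k + 1) else x (k + 1)

lemma mergeAt_res {n : ℕ} (i : ℕ) (x : ℕ → A) : mergeAt i (res (n + 1) x) = res n (mergeN i x) := by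
  funext k
  simp only [mergeAt, res, mergeN, Fin.val_castSucc, Fin.val_succ]

lemma mergeN_lt {i k : ℕ} (x : ℕ → A) (h : k < i) : mergeN i x k = x k := by
  simp [mergeN, h]

lemma mergeN_eq (i : ℕ) (x : ℕ → A) : mergeN i x i = x i * x (i + 1) := by
  simp [mergeN]

lemma mergeN_gt {i k : ℕ} (x : ℕ → A) (h : i < k) : mergeN i x k = x (k + 1) := by
  have h1 : ¬ k < i := by omega
  have h2 : k ≠ i := by omega
  simp [mergeN, h1, h2]

end Merge

lemma mergeN_comm {A : Type*} [Semigroup A] {i j : ℕ} (h : j ≤ i) (x : ℕ → A) :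
    mergeN j (mergeN (i + 1) x) = mergeN i (mergeN j x) := by
  funext k
  rcases lt_trichotomy k j with hk | hk | hk
  · rw [mergeN_lt _ hk, mergeN_lt _ (by omega), mergeN_lt _ (by omega), mergeN_lt _ hk]
  · subst hk
    rw [mergeN_eq, mergeN_lt _ (by omega)]
    rcases h.eq_or_lt with h' | h'
    · subst h'
      rw [mergeN_eq, mergeN_eq, mergeN_eq, mergeN_gt _ (by omega), mul_assoc]
    · rw [mergeN_lt _ (by omega), mergeN_lt _ h', mergeN_eq]
  · rw [mergeN_gt _ hk]
    rcases lt_trichotomy k i with hki | hki | hki
    · rw [mergeN_lt _ (by omega), mergeN_lt _ hki, mergeN_gt _ hk]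
    · subst hki
      rw [mergeN_eq, mergeN_eq, mergeN_gt _ hk, mergeN_gt _ (by omega)]
    · rw [mergeN_gt _ (by omega), mergeN_gt _ hki, mergeN_gt _ (by omega)]

/-- Merging does not change the total product. -/
lemma prod_mergeN {M : Type*} [CommMonoid M] {n i : ℕ} (hi : i < n) (h : ℕ → M) :
    ∏ k ∈ range n, mergeN i h k = ∏ k ∈ range (n + 1), h k := by
  induction n with
  | zero => omega
  | succ n ih =>
    rw [prod_range_succ, prod_range_succ _ (n + 1)]
    rcases Nat.lt_succ_iff_lt_or_eq.1 hi with h' | h'
    · rw [ih h', mergeN_gt _ h']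
    · subst h'
      rw [mergeN_eq, prod_range_succ]
      have : ∏ k ∈ range i, mergeN i h k = ∏ k ∈ range i, h k :=
        prod_congr rfl fun k hk => mergeN_lt _ (mem_range.1 hk)
      rw [this, mul_assoc]

/-- The alternating double sum cancels. -/
lemma double_sum_zero {Z : Type*} [AddCommGroup Z] [Module ℂ Z] (F : ℕ → ℕ → Z)
    (hF : ∀ i j, j ≤ i → F (i + 1) j = F j i) (n : ℕ) :
    ∑ i ∈ range (n + 1), (-1 : ℂ) ^ (i + 1) • ∑ j ∈ range n, (-1 : ℂ) ^ (j + 1) • F i j = 0 := by
  have h1 : ∀ n, ∑ i ∈ range (n + 1), ∑ j ∈ range n, (-1 : ℂ) ^ (i + j) • F i j = 0 := by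
    intro n
    induction n with
    | zero => simp
    | succ n ih =>
      rw [sum_range_succ]
      have e1 : ∑ i ∈ range (n + 1), ∑ j ∈ range (n + 1), (-1 : ℂ) ^ (i + j) • F i j =
          ∑ i ∈ range (n + 1), ∑ j ∈ range n, (-1 : ℂ) ^ (i + j) • F i j +
          ∑ i ∈ range (n + 1), (-1 : ℂ) ^ (i + n) • F i n := by
        rw [← sum_add_distrib]
        exact sum_congr rfl fun i _ => sum_range_succ _ _
      rw [e1, ih, zero_add, ← sum_add_distrib]
      refine sum_eq_zero fun i hi => ?_
      rw [mem_range] at hi
      rw [hF n i (by omega), ← add_smul]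
      have : (-1 : ℂ) ^ (i + n) + (-1) ^ (n + 1 + i) = 0 := by ring
      rw [this, zero_smul]
  have h2 := h1 n
  rw [← h2]
  refine sum_congr rfl fun i _ => ?_
  rw [smul_sum]
  refine sum_congr rfl fun j _ => ?_
  rw [smul_smul]
  congr 1
  ring

/-- The bar differential of a function. -/
def barD {A Z : Type*} [Mul A] [AddCommGroup Z] [Module ℂ Z] {n : ℕ} (f : (Fin n → A) → Z)
    (a : Fin (n + 1) → A) : Z := ∑ i ∈ range n, (-1 : ℂ) ^ (i + 1) • f (mergeAt i a)

lemma barD_barD {A Z : Type*} [Ring A] [AddCommGroup Z] [Module ℂ Z] {n : ℕ}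
    (f : (Fin n → A) → Z) (a : Fin (n + 2) → A) : barD (barD f) a = 0 := by
  obtain ⟨x, rfl⟩ := exists_res a
  unfold barD
  simp only [mergeAt_res]
  exact double_sum_zero (fun i j => f (res n (mergeN j (mergeN i x))))
    (fun i j hij => by rw [mergeN_comm hij]) n

/-- Multilinearity as a predicate. -/
structure IsMultilin {A Z : Type*} [AddCommGroup A] [Module ℂ A] [AddCommGroup Z] [Module ℂ Z]
    {n : ℕ} (f : (Fin n → A) → Z) : Prop where
  map_add : ∀ (a : Fin n → A) (i : Fin n) (x y : A),
    f (Function.update a i (x + y)) = f (Function.update a i x) + f (Function.update a i y)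
  map_smul : ∀ (a : Fin n → A) (i : Fin n) (c : ℂ) (x : A),
    f (Function.update a i (c • x)) = c • f (Function.update a i x)

section Multi

variable {A Z : Type*} [Ring A] [Algebra ℂ A] [AddCommGroup Z] [Module ℂ Z] {n : ℕ}

lemma IsMultilin.zero_of {f : (Fin n → A) → Z} (hf : IsMultilin f) {x : ℕ → A} {i : ℕ}
    (hi : i < n) (h : x i = 0) : f (res n x) = 0 := by
  have e : res n x = Function.update (res n x) ⟨i, hi⟩ ((0 : ℂ) • (0 : A)) := by
    rw [← res_update, zero_smul, ← h, Function.update_eq_self]
  rw [e, hf.map_smul, zero_smul]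

lemma IsMultilin.update_add {f : (Fin n → A) → Z} (hf : IsMultilin f) (x : ℕ → A) {i : ℕ}
    (hi : i < n) (y z : A) : f (res n (Function.update x i (y + z))) =
      f (res n (Function.update x i y)) + f (res n (Function.update x i z)) := by
  rw [res_update x hi, res_update x hi, res_update x hi, hf.map_add]

lemma IsMultilin.update_smul {f : (Fin n → A) → Z} (hf : IsMultilin f) (x : ℕ → A) {i : ℕ}
    (hi : i < n) (c : ℂ) (z : A) : f (res n (Function.update x i (c • z))) =
      c • f (res n (Function.update x i z)) := by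
  rw [res_update x hi, res_update x hi, hf.map_smul]

/-- Merging after changing one entry is changing one entry after merging. -/
lemma merge_update (x : ℕ → A) {i k : ℕ} (hi : i < n) (hk : k < n + 1) :
    ∃ (k' : ℕ) (φ : A →ₗ[ℂ] A), k' < n ∧
      ∀ z, mergeN i (Function.update x k z) = Function.update (mergeN i x) k' (φ z) := by
  rcases lt_trichotomy k i with h | h | h
  · refine ⟨k, LinearMap.id, by omega, fun z => ?_⟩
    funext l
    rcases lt_trichotomy l i with hl | hl | hl
    · rw [mergeN_lt _ hl]
      by_cases hlk : l = k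
      · subst hlk
        simp
      · rw [Function.update_of_ne hlk, Function.update_of_ne hlk, mergeN_lt _ hl]
    · subst hl
      rw [mergeN_eq, Function.update_of_ne (by omega), Function.update_of_ne (by omega),
        Function.update_of_ne (by omega), mergeN_eq]
    · rw [mergeN_gt _ hl, Function.update_of_ne (by omega), Function.update_of_ne (by omega),
        mergeN_gt _ hl]
  · subst h
    refine ⟨k, LinearMap.mulRight ℂ (x (k + 1)), by omega, fun z => ?_⟩
    funext l
    rcases lt_trichotomy l k with hl | hl | hl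
    · rw [mergeN_lt _ hl, Function.update_of_ne (by omega), Function.update_of_ne (by omega),
        mergeN_lt _ hl]
    · subst hl
      rw [mergeN_eq, Function.update_self, Function.update_of_ne (by omega), Function.update_self]
      rfl
    · rw [mergeN_gt _ hl, Function.update_of_ne (by omega), Function.update_of_ne (by omega),
        mergeN_gt _ hl]
  · rcases Nat.lt_or_ge k (i + 2) with h' | h'
    · have hk' : k = i + 1 := by omega
      subst hk'
      refine ⟨i, LinearMap.mulLeft ℂ (x i), by omega, fun z => ?_⟩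
      funext l
      rcases lt_trichotomy l i with hl | hl | hl
      · rw [mergeN_lt _ hl, Function.update_of_ne (by omega), Function.update_of_ne (by omega),
          mergeN_lt _ hl]
      · subst hl
        rw [mergeN_eq, Function.update_self, Function.update_of_ne (by omega),
          Function.update_self]
        rfl
      · rw [mergeN_gt _ hl, Function.update_of_ne (by omega), Function.update_of_ne (by omega),
          mergeN_gt _ hl]
    · refine ⟨k - 1, LinearMap.id, by omega, fun z => ?_⟩
      funext l
      rcases lt_trichotomy l i with hl | hl | hl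
      · rw [mergeN_lt _ hl, Function.update_of_ne (by omega), Function.update_of_ne (by omega),
          mergeN_lt _ hl]
      · subst hl
        rw [mergeN_eq, Function.update_of_ne (by omega), Function.update_of_ne (by omega),
          Function.update_of_ne (by omega), mergeN_eq]
      · rw [mergeN_gt _ hl]
        by_cases hlk : l = k - 1
        · subst hlk
          have : k - 1 + 1 = k := by omega
          rw [this, Function.update_self, Function.update_self]
          rfl
        · rw [Function.update_of_ne (by omega), Function.update_of_ne hlk, mergeN_gt _ hl]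

lemma IsMultilin.merge {f : (Fin n → A) → Z} (hf : IsMultilin f) {i : ℕ} (hi : i < n) :
    IsMultilin (fun a : Fin (n + 1) → A => f (mergeAt i a)) := by
  have key : ∀ (a : Fin (n + 1) → A) (k : Fin (n + 1)), ∃ (k' : Fin n) (φ : A →ₗ[ℂ] A),
      ∀ z, mergeAt i (Function.update a k z) = Function.update (mergeAt i a) k' (φ z) := by
    intro a k
    obtain ⟨x, rfl⟩ := exists_res a
    obtain ⟨k', φ, hk', hφ⟩ := merge_update (n := n) x hi k.2
    refine ⟨⟨k', hk'⟩, φ, fun z => ?_⟩
    have e : Function.update (res (n + 1) x) k z = res (n + 1) (Function.update x k z) :=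
      (res_update x k.2 z).symm
    rw [e, mergeAt_res, mergeAt_res, hφ, res_update _ hk']
  constructor
  · intro a k y z
    obtain ⟨k', φ, h⟩ := key a k
    rw [h, h, h, _root_.map_add, hf.map_add]
  · intro a k c z
    obtain ⟨k', φ, h⟩ := key a k
    rw [h, h, _root_.map_smul, hf.map_smul]

lemma IsMultilin.sum_smul {κ : Type*} (s : Finset κ) (c : κ → ℂ) {f : κ → (Fin n → A) → Z}
    (hf : ∀ i ∈ s, IsMultilin (f i)) : IsMultilin (fun a => ∑ i ∈ s, c i • f i a) := by
  constructor
  · intro a k y z
    rw [← sum_add_distrib]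
    refine sum_congr rfl fun i hi => ?_
    rw [(hf i hi).map_add, smul_add]
  · intro a k d z
    rw [smul_sum]
    refine sum_congr rfl fun i hi => ?_
    rw [(hf i hi).map_smul, smul_comm]

lemma IsMultilin.barD {f : (Fin n → A) → Z} (hf : IsMultilin f) : IsMultilin (barD f) :=
  IsMultilin.sum_smul _ _ fun _ hi => hf.merge (mem_range.1 hi)

end Multi

end

end Pool.Agent.Helper5.Sym
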