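import Mathlib

/-!
Hilbert's inequality for the matrix `1 / (i - l - 1/2)`.
-/

namespace Pool.Agent.Helper5.Sym

open Filter Topology MeasureTheory intervalIntegral

noncomputable section

open Complex in
/-- `∫_0^{2π} e^{I c θ} = (e^{2 π I c} - 1) / (I c)`. -/
lemma int_exp {c : ℂ} (hc : c ≠ 0) :
    ∫ θ in (0 : ℝ)..(2 * Real.pi), exp (I * c * θ) = (exp (I * c * (2 * Real.pi)) - 1) / (I * c) := by
  have h : (I * c) ≠ 0 := mul_ne_zero I_ne_zero hc
  rw [integral_exp_mul_complex h]
  push_cast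
  simp

open Complex in
lemma int_half (k : ℤ) :
    ∫ θ in (0 : ℝ)..(2 * Real.pi), exp (I * ((k : ℂ) - 1 / 2) * θ) =
      2 * I / ((k : ℂ) - 1 / 2) := by
  have hne : ((k : ℂ) - 1 / 2) ≠ 0 := by
    intro h
    have h2 : (2 * k : ℂ) = 1 := by linear_combination 2 * h
    have h3 : (2 * k : ℤ) = 1 := by exact_mod_cast h2
    omega
  rw [int_exp hne]
  have h1 : exp (I * ((k : ℂ) - 1 / 2) * (2 * Real.pi)) = -1 := by
    have : I * ((k : ℂ) - 1 / 2) * (2 * Real.pi) = (k : ℂ) * (2 * Real.pi * I) - Real.pi * I := by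
      ring
    rw [this, exp_sub, exp_int_mul_two_pi_mul_I, exp_pi_mul_I]
    norm_num
  rw [h1, div_eq_div_iff (mul_ne_zero I_ne_zero hne) hne]
  have : I * I = -1 := I_mul_I
  linear_combination (-2 * ((k : ℂ) - 1 / 2)) * this

open Complex in
lemma int_diff (i j : ℕ) :
    ∫ θ in (0 : ℝ)..(2 * Real.pi), exp (I * ((i : ℂ) - j) * θ) =
      if i = j then 2 * Real.pi else 0 := by
  by_cases h : i = j
  · subst h
    simp
  · rw [if_neg h]
    have hne : ((i : ℂ) - j) ≠ 0 := by
      intro h'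
      apply h
      have : (i : ℂ) = j := by linear_combination h'
      exact_mod_cast this
    rw [int_exp hne]
    have h1 : exp (I * ((i : ℂ) - j) * (2 * Real.pi)) = 1 := by
      have : I * ((i : ℂ) - j) * (2 * Real.pi) = (((i : ℤ) - (j : ℤ) : ℤ) : ℂ) * (2 * Real.pi * I) := by
        push_cast
        ring
      rw [this, exp_int_mul_two_pi_mul_I]
    rw [h1]
    simp

open Complex in
/-- Parseval. -/
lemma parseval (N : ℕ) (x : ℕ → ℂ) :
    ∫ θ in (0 : ℝ)..(2 * Real.pi), ‖∑ i ∈ Finset.range N, x i * exp (I * i * θ)‖ ^ 2 =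
      2 * Real.pi * ∑ i ∈ Finset.range N, ‖x i‖ ^ 2 := by
  have h1 : ∀ θ : ℝ, ((‖∑ i ∈ Finset.range N, x i * exp (I * i * θ)‖ ^ 2 : ℝ) : ℂ) =
      ∑ i ∈ Finset.range N, ∑ j ∈ Finset.range N,
        (x i * (starRingEnd ℂ) (x j)) * exp (I * ((i : ℂ) - j) * θ) := by
    intro θ
    rw [← Complex.normSq_eq_norm_sq, ← Complex.mul_conj, map_sum, Finset.sum_mul_sum]
    refine Finset.sum_congr rfl fun i _ => Finset.sum_congr rfl fun j _ => ?_
    rw [map_mul, ← exp_conj]
    have : I * ((i : ℂ) - j) * θ = I * i * θ + (starRingEnd ℂ) (I * j * θ) := by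
      simp only [map_mul, conj_I, conj_natCast, conj_ofReal]
      ring
    rw [this, exp_add]
    ring
  have h2 : ((∫ θ in (0 : ℝ)..(2 * Real.pi),
      ‖∑ i ∈ Finset.range N, x i * exp (I * i * θ)‖ ^ 2 : ℝ) : ℂ) =
      ((2 * Real.pi * ∑ i ∈ Finset.range N, ‖x i‖ ^ 2 : ℝ) : ℂ) := by
    rw [← intervalIntegral.integral_ofReal]
    simp only [h1]
    rw [intervalIntegral.integral_finsetSum]
    · have h3 : ∀ i ∈ Finset.range N, ∫ θ in (0 : ℝ)..(2 * Real.pi),
          ∑ j ∈ Finset.range N, (x i * (starRingEnd ℂ) (x j)) * exp (I * ((i : ℂ) - j) * θ) =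
          2 * Real.pi * ((‖x i‖ ^ 2 : ℝ) : ℂ) := by
        intro i hi
        rw [intervalIntegral.integral_finsetSum]
        · simp only [intervalIntegral.integral_const_mul, int_diff]
          rw [Finset.sum_eq_single i]
          · rw [if_pos rfl, Complex.mul_conj, Complex.normSq_eq_norm_sq]
            push_cast
            ring
          · intro j _ hj
            rw [if_neg (Ne.symm hj)]
            simp
          · exact fun h => absurd hi h
        · intro j _
          apply Continuous.intervalIntegrable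
          fun_prop
      rw [Finset.sum_congr rfl h3, ← Finset.mul_sum]
      push_cast
      rfl
    · intro i _
      apply Continuous.intervalIntegrable
      fun_prop
  exact_mod_cast h2

open Complex in
/-- Hilbert's inequality, normalised version. -/
lemma hilbert_one (N : ℕ) (x y : ℕ → ℂ) (hx : ∀ i, ‖x i‖ ≤ 1) (hy : ∀ i, ‖y i‖ ≤ 1) :
    ‖∑ i ∈ Finset.range N, ∑ l ∈ Finset.range N, x i * y l / ((i : ℂ) - l - 1 / 2)‖ ≤
      Real.pi * N := by
  let F : ℝ → ℂ := fun θ => ∑ i ∈ Finset.range N, x i * exp (I * i * θ)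
  let G : ℝ → ℂ := fun θ => ∑ l ∈ Finset.range N, (starRingEnd ℂ (y l)) * exp (I * l * θ)
  have hF : Continuous F := by
    show Continuous fun θ : ℝ => ∑ i ∈ Finset.range N, x i * exp (I * i * θ)
    fun_prop
  have hG : Continuous G := by
    show Continuous fun θ : ℝ => ∑ l ∈ Finset.range N, (starRingEnd ℂ (y l)) * exp (I * l * θ)
    fun_prop
  have h1 : ∀ θ : ℝ, F θ * (starRingEnd ℂ) (G θ) * exp (-(I * θ / 2)) =
      ∑ i ∈ Finset.range N, ∑ l ∈ Finset.range N,
        (x i * y l) * exp (I * ((((i : ℤ) - (l : ℤ) : ℤ) : ℂ) - 1 / 2) * θ) := by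
    intro θ
    show (∑ i ∈ Finset.range N, x i * exp (I * i * θ)) * (starRingEnd ℂ)
      (∑ l ∈ Finset.range N, (starRingEnd ℂ (y l)) * exp (I * l * θ)) * exp (-(I * θ / 2)) = _
    rw [map_sum, Finset.sum_mul_sum, Finset.sum_mul]
    refine Finset.sum_congr rfl fun i _ => ?_
    rw [Finset.sum_mul]
    refine Finset.sum_congr rfl fun l _ => ?_
    rw [map_mul, ← exp_conj]
    have : I * ((((i : ℤ) - (l : ℤ) : ℤ) : ℂ) - 1 / 2) * θ =
        I * i * θ + (starRingEnd ℂ) (I * l * θ) + (-(I * θ / 2)) := by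
      simp only [map_mul, conj_I, conj_natCast, conj_ofReal]
      push_cast
      ring
    rw [this, exp_add, exp_add]
    simp only [RingHomCompTriple.comp_apply, RingHom.id_apply]
    ring
  have h2 : ∫ θ in (0 : ℝ)..(2 * Real.pi), F θ * (starRingEnd ℂ) (G θ) * exp (-(I * θ / 2)) =
      (2 * I) * ∑ i ∈ Finset.range N, ∑ l ∈ Finset.range N, x i * y l / ((i : ℂ) - l - 1 / 2) := by
    simp only [h1]
    rw [intervalIntegral.integral_finsetSum, Finset.mul_sum]
    · refine Finset.sum_congr rfl fun i _ => ?_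
      rw [intervalIntegral.integral_finsetSum, Finset.mul_sum]
      · refine Finset.sum_congr rfl fun l _ => ?_
        rw [intervalIntegral.integral_const_mul, int_half]
        push_cast
        ring
      · intro l _
        apply Continuous.intervalIntegrable
        fun_prop
    · intro i _
      apply Continuous.intervalIntegrable
      fun_prop
  have hsum : ∀ z : ℕ → ℂ, (∀ i, ‖z i‖ ≤ 1) → ∑ i ∈ Finset.range N, ‖z i‖ ^ 2 ≤ N := by
    intro z hz
    calc ∑ i ∈ Finset.range N, ‖z i‖ ^ 2 ≤ ∑ i ∈ Finset.range N, (1 : ℝ) := by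
          refine Finset.sum_le_sum fun i _ => ?_
          have := norm_nonneg (z i)
          have := hz i
          nlinarith
      _ = N := by simp
  have h3 : ‖∫ θ in (0 : ℝ)..(2 * Real.pi), F θ * (starRingEnd ℂ) (G θ) * exp (-(I * θ / 2))‖ ≤
      2 * Real.pi * N := by
    have hpi : (0 : ℝ) ≤ 2 * Real.pi := by positivity
    have h4 : ∀ θ : ℝ, ‖F θ * (starRingEnd ℂ) (G θ) * exp (-(I * θ / 2))‖ ≤
        (‖F θ‖ ^ 2 + ‖G θ‖ ^ 2) / 2 := by
      intro θ
      have h5 : ‖exp (-(I * θ / 2))‖ = 1 := by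
        have : -(I * θ / 2) = ((-θ / 2 : ℝ) : ℂ) * I := by
          push_cast
          ring
        rw [this, norm_exp_ofReal_mul_I]
      rw [norm_mul, norm_mul, h5, mul_one, RCLike.norm_conj]
      nlinarith [sq_nonneg (‖F θ‖ - ‖G θ‖)]
    refine (intervalIntegral.norm_integral_le_of_norm_le hpi
      (Eventually.of_forall fun θ _ => h4 θ) ?_).trans ?_
    · apply Continuous.intervalIntegrable
      fun_prop
    · have hp1 := parseval N x
      have hp2 := parseval N (fun l => starRingEnd ℂ (y l))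
      have e1 : ∫ θ in (0 : ℝ)..(2 * Real.pi), (‖F θ‖ ^ 2 + ‖G θ‖ ^ 2) / 2 =
          ((∫ θ in (0 : ℝ)..(2 * Real.pi), ‖F θ‖ ^ 2) +
            ∫ θ in (0 : ℝ)..(2 * Real.pi), ‖G θ‖ ^ 2) / 2 := by
        rw [intervalIntegral.integral_div, intervalIntegral.integral_add]
        · apply Continuous.intervalIntegrable
          fun_prop
        · apply Continuous.intervalIntegrable
          fun_prop
      rw [e1]
      have e2 : ∫ θ in (0 : ℝ)..(2 * Real.pi), ‖F θ‖ ^ 2 =
        2 * Real.pi * ∑ i ∈ Finset.range N, ‖x i‖ ^ 2 := hp1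
      have e3 : ∫ θ in (0 : ℝ)..(2 * Real.pi), ‖G θ‖ ^ 2 =
        2 * Real.pi * ∑ i ∈ Finset.range N, ‖(starRingEnd ℂ) (y i)‖ ^ 2 := hp2
      rw [e2, e3]
      have b1 := hsum x hx
      have b2 := hsum (fun l => (starRingEnd ℂ) (y l)) (by simpa using hy)
      have b3 := mul_le_mul_of_nonneg_left b1 hpi
      have b4 := mul_le_mul_of_nonneg_left b2 hpi
      linarith
  rw [h2, norm_mul] at h3
  have h6 : ‖(2 * I : ℂ)‖ = 2 := by simp
  rw [h6] at h3
  linarith

/-- Hilbert's inequality. -/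
lemma hilbert (N : ℕ) (x y : ℕ → ℂ) {X Y : ℝ} (hX : 0 ≤ X) (hY : 0 ≤ Y) (hx : ∀ i, ‖x i‖ ≤ X)
    (hy : ∀ i, ‖y i‖ ≤ Y) :
    ‖∑ i ∈ Finset.range N, ∑ l ∈ Finset.range N, x i * y l / ((i : ℂ) - l - 1 / 2)‖ ≤
      Real.pi * N * (X * Y) := by
  rcases hX.eq_or_lt with rfl | hX'
  · have : ∀ i, x i = 0 := fun i => norm_le_zero_iff.1 (hx i)
    simp [this]
  rcases hY.eq_or_lt with rfl | hY'
  · have : ∀ i, y i = 0 := fun i => norm_le_zero_iff.1 (hy i)
    simp [this]
  have h := hilbert_one N (fun i => x i / X) (fun i => y i / Y)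
    (fun i => by
      rw [norm_div, Complex.norm_real, Real.norm_of_nonneg hX, div_le_one hX']
      exact hx i)
    (fun i => by
      rw [norm_div, Complex.norm_real, Real.norm_of_nonneg hY, div_le_one hY']
      exact hy i)
  have e : ∑ i ∈ Finset.range N, ∑ l ∈ Finset.range N, x i * y l / ((i : ℂ) - l - 1 / 2) =
      ((X * Y : ℝ) : ℂ) * ∑ i ∈ Finset.range N, ∑ l ∈ Finset.range N,
        (x i / X) * (y l / Y) / ((i : ℂ) - l - 1 / 2) := by
    rw [Finset.mul_sum]
    refine Finset.sum_congr rfl fun i _ => ?_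
    rw [Finset.mul_sum]
    refine Finset.sum_congr rfl fun l _ => ?_
    have hX'' : (X : ℂ) ≠ 0 := by exact_mod_cast hX'.ne'
    have hY'' : (Y : ℂ) ≠ 0 := by exact_mod_cast hY'.ne'
    push_cast
    field_simp
  rw [e, norm_mul, Complex.norm_real, Real.norm_of_nonneg (mul_nonneg hX hY)]
  have := mul_le_mul_of_nonneg_left h (mul_nonneg hX hY)
  linarith

/-- The sum over the triangle. -/
def triSum (N : ℕ) : ℝ :=
  ∑ i ∈ Finset.range N, ∑ l ∈ Finset.range N, if i ≤ l then 1 / ((l : ℝ) - i + 1 / 2) else 0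

/-- The triangular sums grow faster than linearly. -/
lemma triSum_large (C : ℝ) : ∃ N : ℕ, C * N + 1 < triSum N := by
  obtain ⟨K, hK1, hK2⟩ : ∃ K : ℕ, 1 ≤ K ∧ 2 * C + 2 < ∑ d ∈ Finset.range K, 1 / ((d : ℝ) + 1) := by
    have h := Real.tendsto_sum_range_one_div_nat_succ_atTop
    have h2 := (h.eventually_gt_atTop (2 * C + 2)).and (eventually_ge_atTop 1)
    obtain ⟨K, hK⟩ := h2.exists
    exact ⟨K, hK.2, hK.1⟩
  refine ⟨2 * K, ?_⟩
  have h1 : ∀ i ∈ Finset.range K, ∑ d ∈ Finset.range K, 1 / ((d : ℝ) + 1) ≤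
      ∑ l ∈ Finset.range (2 * K), if i ≤ l then 1 / ((l : ℝ) - i + 1 / 2) else 0 := by
    intro i hi
    rw [Finset.mem_range] at hi
    have h2 : ∑ l ∈ (Finset.range K).image (fun d => d + i),
        (if i ≤ l then 1 / ((l : ℝ) - i + 1 / 2) else 0) ≤
        ∑ l ∈ Finset.range (2 * K), if i ≤ l then 1 / ((l : ℝ) - i + 1 / 2) else 0 := by
      apply Finset.sum_le_sum_of_subset_of_nonneg
      · intro l hl
        rw [Finset.mem_image] at hl
        obtain ⟨d, hd, rfl⟩ := hl
        rw [Finset.mem_range] at hd ⊢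
        omega
      · intro l _ _
        split_ifs with h
        · have : (0 : ℝ) ≤ (l : ℝ) - i := by
            rw [sub_nonneg]
            exact_mod_cast h
          positivity
        · exact le_rfl
    refine le_trans ?_ h2
    rw [Finset.sum_image (fun a _ b _ h => by simpa using h)]
    refine Finset.sum_le_sum fun d _ => ?_
    rw [if_pos (Nat.le_add_left i d)]
    push_cast
    apply one_div_le_one_div_of_le
    · have : (0 : ℝ) ≤ (d : ℝ) := Nat.cast_nonneg d
      linarith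
    · linarith
  have h3 : ∑ i ∈ Finset.range K, (2 * C + 2) ≤ triSum (2 * K) := by
    unfold triSum
    have h4 : ∑ i ∈ Finset.range K, ∑ l ∈ Finset.range (2 * K),
        (if i ≤ l then 1 / ((l : ℝ) - i + 1 / 2) else 0) ≤
        ∑ i ∈ Finset.range (2 * K), ∑ l ∈ Finset.range (2 * K),
          if i ≤ l then 1 / ((l : ℝ) - i + 1 / 2) else 0 := by
      apply Finset.sum_le_sum_of_subset_of_nonneg
      · intro l hl
        rw [Finset.mem_range] at hl ⊢
        omega
      · intro i _ _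
        refine Finset.sum_nonneg fun l _ => ?_
        split_ifs with h
        · have : (0 : ℝ) ≤ (l : ℝ) - i := by
            rw [sub_nonneg]
            exact_mod_cast h
          positivity
        · exact le_rfl
    refine le_trans (Finset.sum_le_sum fun i hi => ?_) h4
    exact hK2.le.trans (h1 i hi)
  rw [Finset.sum_const, Finset.card_range, nsmul_eq_mul] at h3
  have hK1' : (1 : ℝ) ≤ K := by exact_mod_cast hK1
  push_cast
  nlinarith

end

end Pool.Agent.Helper5.Sym
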