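import Mathlib

/-!
The one-point compactification of the tree space over an alphabet, realised inside a Cantor cube.
-/

namespace Pool.Agent.Helper5.Sym

open Filter Topology Classical

noncomputable section

universe u

variable {D : Type u}

/-- The first `n + 1` letters of a branch. -/
def pref (c : ℕ → D) (n : ℕ) : List D := List.ofFn fun i : Fin (n + 1) => c i

lemma pref_length (c : ℕ → D) (n : ℕ) : (pref c n).length = n + 1 := by simp [pref]

lemma pref_eq_iff {c d : ℕ → D} {n m : ℕ} :
    pref c n = pref d m ↔ n = m ∧ ∀ i ≤ n, c i = d i := by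
  constructor
  · intro h
    have h1 : n = m := by
      have := congrArg List.length h
      rw [pref_length, pref_length] at this
      omega
    subst h1
    refine ⟨rfl, fun i hi => ?_⟩
    have h2 := congrFun (List.ofFn_injective h) ⟨i, by omega⟩
    exact h2
  · rintro ⟨rfl, h⟩
    unfold pref
    congr 1
    funext i
    exact h i (by omega)

/-- Coordinates of the cube: nodes and branches. -/
abbrev Idx (D : Type u) : Type u := List D ⊕ (ℕ → D)

/-- The point of a node. -/
def nodeFun (y : List D) : Idx D → Bool
  | Sum.inl x => decide (x = y)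
  | Sum.inr c => decide (∃ n, y = pref c n)

/-- The point of a branch. -/
def brFun (b : ℕ → D) : Idx D → Bool
  | Sum.inl _ => false
  | Sum.inr c => decide (b = c)

/-- The set of points. -/
def ptSet (D : Type u) : Set (Idx D → Bool) :=
  Set.range nodeFun ∪ Set.range brFun ∪ {fun _ => false}

lemma ptSet_closed : IsClosed (ptSet D) := by
  have key : ptSet D = {χ | (∀ x y : List D, χ (Sum.inl x) = true → χ (Sum.inl y) = true → x = y) ∧
      (∀ (x : List D) (c : ℕ → D), χ (Sum.inl x) = true →
        χ (Sum.inr c) = decide (∃ n, x = pref c n)) ∧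
      (∀ (c d : ℕ → D) (N : ℕ), c N ≠ d N → χ (Sum.inr c) = true → χ (Sum.inr d) = true →
        ∃ n ∈ Finset.range N, χ (Sum.inl (pref c n)) = true)} := by
    ext χ
    constructor
    · rintro ((⟨y, rfl⟩ | ⟨b, rfl⟩) | rfl)
      · refine ⟨?_, ?_, ?_⟩
        · intro x x' h h'
          simp only [nodeFun, decide_eq_true_eq] at h h'
          rw [h, h']
        · intro x c h
          simp only [nodeFun, decide_eq_true_eq] at h
          subst h
          rfl
        · intro c d N hN hc hd
          simp only [nodeFun, decide_eq_true_eq] at hc hd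
          obtain ⟨n, rfl⟩ := hc
          obtain ⟨m, hm⟩ := hd
          rw [pref_eq_iff] at hm
          refine ⟨n, ?_, ?_⟩
          · rw [Finset.mem_range]
            by_contra hcon
            exact hN (hm.2 N (by omega))
          · simp [nodeFun]
      · refine ⟨?_, ?_, ?_⟩
        · intro x x' h
          simp [brFun] at h
        · intro x c h
          simp [brFun] at h
        · intro c d N hN hc hd
          simp only [brFun, decide_eq_true_eq] at hc hd
          exact absurd (by rw [← hc, ← hd]) hN
      · refine ⟨?_, ?_, ?_⟩
        · intro x x' h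
          simp at h
        · intro x c h
          simp at h
        · intro c d N hN hc
          simp at hc
    · rintro ⟨h1, h2, h3⟩
      by_cases hx : ∃ x, χ (Sum.inl x) = true
      · obtain ⟨x, hx⟩ := hx
        refine Or.inl (Or.inl ⟨x, ?_⟩)
        funext i
        rcases i with y | c
        · by_cases hy : χ (Sum.inl y) = true
          · rw [h1 x y hx hy, hy]
            simp [nodeFun]
          · have : y ≠ x := by
              rintro rfl
              exact hy hx
            simp only [nodeFun, this, decide_false]
            simpa using hy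
        · rw [h2 x c hx]
          rfl
      · push Not at hx
        by_cases hc : ∃ c, χ (Sum.inr c) = true
        · obtain ⟨c, hc⟩ := hc
          refine Or.inl (Or.inr ⟨c, ?_⟩)
          funext i
          rcases i with y | d
          · have := hx y
            simp only [Bool.not_eq_true] at this
            rw [this]
            rfl
          · by_cases hcd : c = d
            · subst hcd
              rw [hc]
              simp [brFun]
            · obtain ⟨N, hN⟩ := Function.ne_iff.1 hcd
              by_cases hd : χ (Sum.inr d) = true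
              · obtain ⟨n, -, hn⟩ := h3 c d N hN hc hd
                exact absurd hn (hx _)
              · simp only [Bool.not_eq_true] at hd
                rw [hd]
                simp [brFun, hcd]
        · push Not at hc
          refine Or.inr ?_
          simp only [Set.mem_singleton_iff]
          funext i
          rcases i with y | d
          · simpa using hx y
          · simpa using hc d
  rw [key]
  have hcl : ∀ (i : Idx D) (b : Bool), IsClosed {χ : Idx D → Bool | χ i = b} := fun i b =>
    isClosed_eq (continuous_apply i) continuous_const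
  have hop : ∀ (i : Idx D) (b : Bool), IsClosed {χ : Idx D → Bool | ¬ χ i = b} := by
    intro i b
    have : {χ : Idx D → Bool | ¬ χ i = b} = {χ : Idx D → Bool | χ i = !b} := by
      ext χ
      cases b <;> simp
    rw [this]
    exact hcl i _
  have himp : ∀ {p q : (Idx D → Bool) → Prop}, IsClosed {χ | ¬ p χ} → IsClosed {χ | q χ} →
      IsClosed {χ | p χ → q χ} := by
    intro p q hp hq
    have : {χ | p χ → q χ} = {χ | ¬ p χ} ∪ {χ | q χ} := by
      ext χ
      simp only [Set.mem_union, Set.mem_ofPred_eq]
      tauto
    rw [this]
    exact hp.union hq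
  have c1 : IsClosed {χ : Idx D → Bool | ∀ x y : List D, χ (Sum.inl x) = true →
      χ (Sum.inl y) = true → x = y} := by
    simp only [Set.ofPred_forall]
    refine isClosed_iInter fun x => isClosed_iInter fun y => ?_
    exact himp (hop _ _) (himp (hop _ _) isClosed_const)
  have c2 : IsClosed {χ : Idx D → Bool | ∀ (x : List D) (c : ℕ → D), χ (Sum.inl x) = true →
      χ (Sum.inr c) = decide (∃ n, x = pref c n)} := by
    simp only [Set.ofPred_forall]
    refine isClosed_iInter fun x => isClosed_iInter fun c => ?_
    exact himp (hop _ _) (hcl _ _)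
  have c3 : IsClosed {χ : Idx D → Bool | ∀ (c d : ℕ → D) (N : ℕ), c N ≠ d N →
      χ (Sum.inr c) = true → χ (Sum.inr d) = true →
        ∃ n ∈ Finset.range N, χ (Sum.inl (pref c n)) = true} := by
    simp only [Set.ofPred_forall]
    refine isClosed_iInter fun c => isClosed_iInter fun d => isClosed_iInter fun N =>
      isClosed_iInter fun _ => ?_
    refine himp (hop _ _) (himp (hop _ _) ?_)
    have : {χ : Idx D → Bool | ∃ n ∈ Finset.range N, χ (Sum.inl (pref c n)) = true} =
        ⋃ n ∈ Finset.range N, {χ | χ (Sum.inl (pref c n)) = true} := by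
      ext χ
      simp
    rw [this]
    exact isClosed_biUnion_finset fun n _ => hcl _ _
  exact c1.inter (c2.inter c3)

/-- The compact space. -/
def Om (D : Type u) : Type u := ptSet D

instance : TopologicalSpace (Om D) := inferInstanceAs (TopologicalSpace (ptSet D))

instance : T2Space (Om D) := inferInstanceAs (T2Space (ptSet D))

instance : CompactSpace (Om D) := isCompact_iff_compactSpace.1 ptSet_closed.isCompact

/-- The coordinates of a point. -/
def crd (p : Om D) : Idx D → Bool := p.1

lemma crd_inducing : IsInducing (crd : Om D → Idx D → Bool) := IsInducing.subtypeVal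

/-- Nodes. -/
def node (y : List D) : Om D := ⟨nodeFun y, Or.inl (Or.inl ⟨y, rfl⟩)⟩

/-- Branches. -/
def br (b : ℕ → D) : Om D := ⟨brFun b, Or.inl (Or.inr ⟨b, rfl⟩)⟩

/-- The point at infinity. -/
def inft : Om D := ⟨fun _ => false, Or.inr rfl⟩

lemma om_cases (p : Om D) : (∃ y, p = node y) ∨ (∃ b, p = br b) ∨ p = inft := by
  rcases p with ⟨χ, (⟨y, rfl⟩ | ⟨b, rfl⟩) | h⟩
  · exact Or.inl ⟨y, rfl⟩
  · exact Or.inr (Or.inl ⟨b, rfl⟩)
  · exact Or.inr (Or.inr (Subtype.ext h))

/-- Coordinate functions as continuous functions. -/
def coordC (i : Idx D) : C(Om D, ℂ) where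
  toFun p := if p.1 i = true then 1 else 0
  continuous_toFun := by
    have h1 : Continuous fun p : Om D => p.1 i := (continuous_apply i).comp continuous_subtype_val
    exact (continuous_of_discreteTopology (f := fun b : Bool => if b = true then (1 : ℂ) else 0)).comp
      h1

/-- The indicator function of a node. -/
def dl (x : List D) : C(Om D, ℂ) := coordC (Sum.inl x)

/-- The indicator function of a branch. -/
def ub (c : ℕ → D) : C(Om D, ℂ) := coordC (Sum.inr c)

lemma dl_node (x y : List D) : dl x (node y) = if x = y then 1 else 0 := by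
  show (if nodeFun y (Sum.inl x) = true then (1 : ℂ) else 0) = _
  simp [nodeFun]

lemma dl_br (x : List D) (b : ℕ → D) : dl x (br b) = 0 := by
  show (if brFun b (Sum.inl x) = true then (1 : ℂ) else 0) = _
  simp [brFun]

lemma dl_inft (x : List D) : dl x (inft : Om D) = 0 := by
  show (if (fun _ => false : Idx D → Bool) (Sum.inl x) = true then (1 : ℂ) else 0) = _
  simp

lemma ub_node (c : ℕ → D) (y : List D) :
    ub c (node y) = if ∃ n, y = pref c n then 1 else 0 := by
  show (if nodeFun y (Sum.inr c) = true then (1 : ℂ) else 0) = _
  simp [nodeFun]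

lemma ub_br (c b : ℕ → D) : ub c (br b) = if b = c then 1 else 0 := by
  show (if brFun b (Sum.inr c) = true then (1 : ℂ) else 0) = _
  simp [brFun]

lemma ub_inft (c : ℕ → D) : ub c (inft : Om D) = 0 := by
  show (if (fun _ => false : Idx D → Bool) (Sum.inr c) = true then (1 : ℂ) else 0) = _
  simp

/-- Two continuous functions agreeing on nodes, branches and infinity are equal. -/
lemma om_ext {f g : C(Om D, ℂ)} (h1 : ∀ y, f (node y) = g (node y))
    (h2 : ∀ b, f (br b) = g (br b)) (h3 : f inft = g inft) : f = g := by
  ext p
  rcases om_cases p with ⟨y, rfl⟩ | ⟨b, rfl⟩ | rfl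
  · exact h1 y
  · exact h2 b
  · exact h3

/-- Along a branch the nodes converge to the branch. -/
lemma tendsto_node (b : ℕ → D) : Tendsto (fun n => (node (pref b n) : Om D)) atTop (𝓝 (br b)) := by
  rw [crd_inducing.tendsto_nhds_iff, tendsto_pi_nhds]
  intro i
  rcases i with x | c
  · refine tendsto_const_nhds.congr' ?_
    filter_upwards [eventually_gt_atTop x.length] with n hn
    show brFun b (Sum.inl x) = nodeFun (pref b n) (Sum.inl x)
    have : x ≠ pref b n := by
      rintro rfl
      rw [pref_length] at hn
      omega
    simp [brFun, nodeFun, this]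
  · by_cases hbc : b = c
    · subst hbc
      refine tendsto_const_nhds.congr fun n => ?_
      show brFun b (Sum.inr b) = nodeFun (pref b n) (Sum.inr b)
      simp [brFun, nodeFun]
    · obtain ⟨N, hN⟩ := Function.ne_iff.1 hbc
      refine tendsto_const_nhds.congr' ?_
      filter_upwards [eventually_ge_atTop N] with n hn
      show brFun b (Sum.inr c) = nodeFun (pref b n) (Sum.inr c)
      have : ¬ ∃ m, pref b n = pref c m := by
        rintro ⟨m, hm⟩
        exact hN ((pref_eq_iff.1 hm).2 N hn)
      simp [brFun, nodeFun, hbc, this]

/-- A continuous function vanishing at infinity is non-zero at countably many branches only. -/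
lemma countable_br {E : Type*} [NormedAddCommGroup E] {f : Om D → E} (hf : Continuous f)
    (h0 : f inft = 0) : {b : ℕ → D | f (br b) ≠ 0}.Countable := by
  have h1 : ∀ k : ℕ, {b : ℕ → D | 1 / ((k : ℝ) + 1) ≤ ‖f (br b)‖}.Finite := by
    intro k
    have hopen : IsOpen {p : Om D | ‖f p‖ < 1 / ((k : ℝ) + 1)} :=
      isOpen_lt hf.norm continuous_const
    have hmem : (inft : Om D) ∈ {p : Om D | ‖f p‖ < 1 / ((k : ℝ) + 1)} := by
      simp only [Set.mem_ofPred_eq, h0, norm_zero]
      positivity
    obtain ⟨V, hV, hVeq⟩ := crd_inducing.isOpen_iff.1 hopen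
    have hmemV : (fun _ => false : Idx D → Bool) ∈ V := by
      have : (inft : Om D) ∈ crd ⁻¹' V := by rw [hVeq]; exact hmem
      exact this
    obtain ⟨I, U, hU, hIU⟩ := isOpen_pi_iff.1 hV _ hmemV
    have hfin : Set.Finite (Sum.inr ⁻¹' (I : Set (Idx D)) : Set (ℕ → D)) :=
      Set.Finite.preimage (Function.Injective.injOn Sum.inr_injective) I.finite_toSet
    refine hfin.subset ?_
    intro b hb
    by_contra hcon
    have h2 : (br b : Om D) ∈ {p : Om D | ‖f p‖ < 1 / ((k : ℝ) + 1)} := by
      rw [← hVeq]
      apply hIU
      intro i hi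
      have h3 : brFun b i = false := by
        rcases i with x | c
        · rfl
        · have : b ≠ c := by
            rintro rfl
            exact hcon hi
          simp [brFun, this]
      show brFun b i ∈ U i
      rw [h3]
      exact (hU i hi).2
    exact absurd (show ‖f (br b)‖ < 1 / ((k : ℝ) + 1) from h2) (not_lt.2 hb)
  have h2 : {b : ℕ → D | f (br b) ≠ 0} = ⋃ k : ℕ, {b : ℕ → D | 1 / ((k : ℝ) + 1) ≤ ‖f (br b)‖} := by
    ext b
    simp only [Set.mem_iUnion, Set.mem_ofPred_eq]
    constructor
    · intro hb
      obtain ⟨k, hk⟩ := exists_nat_one_div_lt (norm_pos_iff.2 hb)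
      exact ⟨k, hk.le⟩
    · rintro ⟨k, hk⟩ h
      rw [h, norm_zero] at hk
      have : 0 < 1 / ((k : ℝ) + 1) := by positivity
      linarith
  rw [h2]
  exact Set.countable_iUnion fun k => (h1 k).countable

end

end Pool.Agent.Helper5.Sym
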