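import Mathlib
import Pool.Agent.Helper5.Sym.Space
import Pool.Agent.Helper5.Sym.Hilb

/-!
The core lemma: balanced bounded bilinear maps from the tree algebra into its projective tensor
square vanish at almost all branches.
-/

namespace Pool.Agent.Helper5.Sym

open Filter Topology Classical Cardinal

noncomputable section

/-- Sign trick for plain bilinear functions. -/
lemma sign_trick' {X Y : Type*} [AddCommGroup X] [Module ℂ X] [AddCommGroup Y] [Module ℂ Y]
    {B : X → Y → ℂ} (add_left : ∀ x x' y, B (x + x') y = B x y + B x' y)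
    (smul_left : ∀ (c : ℂ) x y, B (c • x) y = c * B x y)
    (add_right : ∀ x y y', B x (y + y') = B x y + B x y')
    (smul_right : ∀ (c : ℂ) x y, B x (c • y) = c * B x y)
    {κ : Type*} (s : Finset κ) (x : κ → X) (y : κ → Y) (M : ℝ) :
    ∀ (x0 : X) (y0 : Y),
    (∀ ε : κ → ℂ, (∀ i, ε i = 1 ∨ ε i = -1) →
      ‖B (x0 + ∑ i ∈ s, ε i • x i) (y0 + ∑ i ∈ s, ε i • y i)‖ ≤ M) →
    ‖B x0 y0 + ∑ i ∈ s, B (x i) (y i)‖ ≤ M := by
  have neg_left : ∀ x y, B (-x) y = - B x y := by
    intro x y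
    have := smul_left (-1) x y
    simpa using this
  have neg_right : ∀ x y, B x (-y) = - B x y := by
    intro x y
    have := smul_right (-1) x y
    simpa using this
  induction s using Finset.induction_on with
  | empty =>
    intro x0 y0 H
    simpa using H (fun _ => 1) (fun _ => Or.inl rfl)
  | insert j s hj ih =>
    intro x0 y0 H
    have e : B x0 y0 + ∑ i ∈ insert j s, B (x i) (y i) =
        (1 / 2 : ℂ) * ((B (x0 + x j) (y0 + y j) + ∑ i ∈ s, B (x i) (y i)) +
          (B (x0 + -x j) (y0 + -y j) + ∑ i ∈ s, B (x i) (y i))) := by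
      rw [Finset.sum_insert hj, add_left, add_right, add_right, add_left, add_right,
        add_right, neg_left, neg_left, neg_right, neg_right]
      ring
    have hp : ∀ δ : ℂ, (δ = 1 ∨ δ = -1) →
        ‖B (x0 + δ • x j) (y0 + δ • y j) + ∑ i ∈ s, B (x i) (y i)‖ ≤ M := by
      intro δ hδ
      apply ih
      intro ε hε
      have := H (Function.update ε j δ) (by
        intro i
        by_cases hij : i = j
        · subst hij
          simpa using hδ
        · simpa [Function.update_of_ne hij] using hε i)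
      rw [Finset.sum_insert hj, Finset.sum_insert hj] at this
      have e1 : ∑ i ∈ s, Function.update ε j δ i • x i = ∑ i ∈ s, ε i • x i := by
        refine Finset.sum_congr rfl fun i hi => ?_
        rw [Function.update_of_ne (fun hij => hj (by rwa [← hij]))]
      have e2 : ∑ i ∈ s, Function.update ε j δ i • y i = ∑ i ∈ s, ε i • y i := by
        refine Finset.sum_congr rfl fun i hi => ?_
        rw [Function.update_of_ne (fun hij => hj (by rwa [← hij]))]
      rw [e1, e2, Function.update_self, ← add_assoc, ← add_assoc] at this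
      exact this
    have h1 := hp 1 (Or.inl rfl)
    have h2 := hp (-1) (Or.inr rfl)
    rw [one_smul, one_smul] at h1
    rw [neg_one_smul, neg_one_smul] at h2
    rw [e, norm_mul]
    have h3 := norm_add_le (B (x0 + x j) (y0 + y j) + ∑ i ∈ s, B (x i) (y i))
      (B (x0 + -x j) (y0 + -y j) + ∑ i ∈ s, B (x i) (y i))
    have h4 : ‖(1 / 2 : ℂ)‖ = 1 / 2 := by norm_num
    rw [h4]
    linarith

section FR

variable {D : Type}

/-- The indicator function of the tail of a branch. -/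
def fR (c : ℕ → D) (R : ℕ) : C(Om D, ℂ) := ub c - ∑ n ∈ Finset.range R, dl (pref c n)

lemma fR_node (c : ℕ → D) (R : ℕ) (y : List D) :
    fR c R (node y) = if ∃ n, R ≤ n ∧ y = pref c n then 1 else 0 := by
  unfold fR
  rw [ContinuousMap.sub_apply, ContinuousMap.sum_apply, ub_node]
  simp only [dl_node]
  by_cases h : ∃ n, y = pref c n
  · obtain ⟨n, rfl⟩ := h
    rw [if_pos ⟨n, rfl⟩]
    by_cases hn : R ≤ n
    · rw [if_pos ⟨n, hn, rfl⟩, Finset.sum_eq_zero, sub_zero]
      intro m hm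
      rw [Finset.mem_range] at hm
      rw [if_neg]
      intro h'
      have := (pref_eq_iff.1 h').1
      omega
    · rw [if_neg, Finset.sum_eq_single n]
      · simp
      · intro m _ hmn
        rw [if_neg]
        intro h'
        exact hmn (pref_eq_iff.1 h').1
      · intro h'
        rw [Finset.mem_range] at h'
        omega
      · rintro ⟨m, hm, h'⟩
        have := (pref_eq_iff.1 h').1
        omega
  · rw [if_neg h, if_neg, Finset.sum_eq_zero, sub_zero]
    · intro m _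
      rw [if_neg]
      rintro rfl
      exact h ⟨m, rfl⟩
    · rintro ⟨n, _, h'⟩
      exact h ⟨n, h'⟩

lemma fR_br (c : ℕ → D) (R : ℕ) (b : ℕ → D) : fR c R (br b) = if b = c then 1 else 0 := by
  unfold fR
  rw [ContinuousMap.sub_apply, ContinuousMap.sum_apply, ub_br]
  simp [dl_br]

lemma fR_inft (c : ℕ → D) (R : ℕ) : fR c R inft = 0 := by
  unfold fR
  rw [ContinuousMap.sub_apply, ContinuousMap.sum_apply, ub_inft]
  simp [dl_inft]

lemma fR_mul_self (c : ℕ → D) (R : ℕ) : fR c R * fR c R = fR c R := by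
  apply om_ext
  · intro y
    rw [ContinuousMap.mul_apply, fR_node]
    split_ifs <;> simp
  · intro b
    rw [ContinuousMap.mul_apply, fR_br]
    split_ifs <;> simp
  · rw [ContinuousMap.mul_apply, fR_inft]
    simp

lemma fR_mul_ub (c : ℕ → D) (R : ℕ) : fR c R * ub c = fR c R := by
  apply om_ext
  · intro y
    rw [ContinuousMap.mul_apply, fR_node, ub_node]
    by_cases h : ∃ n, R ≤ n ∧ y = pref c n
    · obtain ⟨n, h1, h2⟩ := h
      rw [if_pos ⟨n, h1, h2⟩, if_pos ⟨n, h2⟩, one_mul]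
    · rw [if_neg h, zero_mul]
  · intro b
    rw [ContinuousMap.mul_apply, fR_br, ub_br]
    split_ifs <;> simp
  · rw [ContinuousMap.mul_apply, fR_inft, zero_mul]

lemma fR_mul_fR {c d : ℕ → D} {R : ℕ} (hcd : ∀ n, R ≤ n → pref c n ≠ pref d n) :
    fR c R * fR d R = 0 := by
  apply om_ext
  · intro y
    rw [ContinuousMap.mul_apply, fR_node, fR_node]
    by_cases h : ∃ n, R ≤ n ∧ y = pref c n
    · obtain ⟨n, h1, rfl⟩ := h
      have : ¬ ∃ m, R ≤ m ∧ pref c n = pref d m := by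
        rintro ⟨m, _, h3⟩
        obtain rfl := (pref_eq_iff.1 h3).1
        exact hcd _ h1 h3
      rw [if_neg this, mul_zero]
      rfl
    · rw [if_neg h, zero_mul]
      rfl
  · intro b
    rw [ContinuousMap.mul_apply, fR_br, fR_br]
    by_cases h1 : b = c
    · have : ¬ b = d := by
        rintro rfl
        exact hcd R le_rfl (by rw [h1])
      rw [if_neg this, mul_zero]
      rfl
    · rw [if_neg h1, zero_mul]
      rfl
  · rw [ContinuousMap.mul_apply, fR_inft, zero_mul]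
    rfl

lemma dl_mul_self (x : List D) : dl x * dl x = dl x := by
  apply om_ext
  · intro y
    rw [ContinuousMap.mul_apply, dl_node]
    split_ifs <;> simp
  · intro b
    rw [ContinuousMap.mul_apply, dl_br]
    simp
  · rw [ContinuousMap.mul_apply, dl_inft]
    simp

lemma ub_mul_self (c : ℕ → D) : ub c * ub c = ub c := by
  apply om_ext
  · intro y
    rw [ContinuousMap.mul_apply, ub_node]
    split_ifs <;> simp
  · intro b
    rw [ContinuousMap.mul_apply, ub_br]
    split_ifs <;> simp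
  · rw [ContinuousMap.mul_apply, ub_inft]
    simp

lemma dl_mul_ub (c : ℕ → D) (n : ℕ) : dl (pref c n) * ub c = dl (pref c n) := by
  apply om_ext
  · intro y
    rw [ContinuousMap.mul_apply, dl_node, ub_node]
    by_cases h : pref c n = y
    · rw [if_pos h, if_pos ⟨n, h.symm⟩, one_mul]
    · rw [if_neg h, zero_mul]
  · intro b
    rw [ContinuousMap.mul_apply, dl_br, zero_mul]
  · rw [ContinuousMap.mul_apply, dl_inft, zero_mul]

/-- Signed sums of disjoint idempotents have norm at most one. -/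
lemma norm_signed_sum {κ : Type*} (s : Finset κ) (f : κ → C(Om D, ℂ)) (ε : κ → ℂ)
    (hε : ∀ i, ‖ε i‖ ≤ 1) (hf : ∀ i ∈ s, f i * f i = f i)
    (hd : ∀ i ∈ s, ∀ j ∈ s, i ≠ j → f i * f j = 0) : ‖∑ i ∈ s, ε i • f i‖ ≤ 1 := by
  rw [ContinuousMap.norm_le _ zero_le_one]
  intro p
  rw [ContinuousMap.sum_apply]
  by_cases h : ∃ i ∈ s, f i p ≠ 0
  · obtain ⟨i, hi, hne⟩ := h
    rw [Finset.sum_eq_single i]
    · have h1 : f i p * f i p = f i p := by rw [← ContinuousMap.mul_apply, hf i hi]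
      have h2 : f i p = 1 := by
        have : f i p * (f i p - 1) = 0 := by rw [mul_sub, h1, mul_one, sub_self]
        rcases mul_eq_zero.1 this with h | h
        · exact absurd h hne
        · exact sub_eq_zero.1 h
      rw [ContinuousMap.smul_apply, h2, smul_eq_mul, mul_one]
      exact hε i
    · intro j hj hji
      have h1 : f j p * f i p = 0 := by
        rw [← ContinuousMap.mul_apply, hd j hj i hi hji]
        rfl
      have h2 : f j p = 0 := (mul_eq_zero.1 h1).resolve_right hne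
      rw [ContinuousMap.smul_apply, h2, smul_zero]
    · exact fun h => absurd hi h
  · push Not at h
    rw [Finset.sum_eq_zero]
    · simp
    · intro i hi
      rw [ContinuousMap.smul_apply, h i hi, smul_zero]

end FR

/-- The data of a balanced bounded bilinear map into the projective tensor square. -/
structure Bal {D D' : Type} {V : Type} [NormedAddCommGroup V] [NormedSpace ℂ V] (ι : D' → D)
    (J : C(Om D, ℂ) → Prop) (pp : Om D → Om D → V)
    (k : C(Om D, ℂ) → C(Om D, ℂ) → V → ℂ) (C : ℝ) : Prop where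
  hilb : ∀ (N : ℕ) (y z : ℕ → Om D) (s : ℕ → ℂ) (S : ℝ), 0 ≤ S → (∀ l, ‖s l‖ ≤ S) →
    ‖∑ l ∈ Finset.range N, ∑ i ∈ Finset.range N, (s l / ((i : ℂ) - l - 1 / 2)) • pp (y i) (z l)‖ ≤
      Real.pi * N * S
  Jadd : ∀ a b, J a → J b → J (a + b)
  Jsmul : ∀ (c : ℂ) a, J a → J (c • a)
  Jub : ∀ c : ℕ → D', J (ub (ι ∘ c))
  Jdl : ∀ (c : ℕ → D') n, J (dl (pref (ι ∘ c) n))
  add1 : ∀ a a' b β, k (a + a') b β = k a b β + k a' b β
  smul1 : ∀ (c : ℂ) a b β, k (c • a) b β = c * k a b β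
  add3 : ∀ a b β β', k a b (β + β') = k a b β + k a b β'
  smul3 : ∀ (c : ℂ) a b β, k a b (c • β) = c * k a b β
  nonneg : 0 ≤ C
  bound : ∀ a b β, ‖k a b β‖ ≤ C * ‖a‖ * ‖b‖ * ‖β‖
  bal : ∀ a b c β, J a → J b → J c → k (a * b) c β = k a (b * c) β
  cont1 : ∀ a b, J a → J b → ∀ q, Continuous fun p => k a b (pp p q)
  zero1 : ∀ a b, J a → J b → ∀ q, k a b (pp inft q) = 0
  cont2 : ∀ a b, J a → J b → ∀ p, Continuous fun q => k a b (pp p q)
  zero2 : ∀ a b, J a → J b → ∀ p, k a b (pp p inft) = 0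

section Small

variable {D' : Type}

/-- Small sets of branches. -/
def Sm (S : Set (ℕ → D')) : Prop := #S ≤ #D'

lemma Sm.mono {S T : Set (ℕ → D')} (h : Sm T) (hST : S ⊆ T) : Sm S :=
  (Cardinal.mk_le_mk_of_subset hST).trans h

lemma sm_countable [Infinite D'] {S : Set (ℕ → D')} (h : S.Countable) : Sm S :=
  (Cardinal.le_aleph0_iff_set_countable.2 h).trans (Cardinal.aleph0_le_mk D')

lemma sm_iUnion [Infinite D'] {I : Type} (hI : #I ≤ #D') (S : I → Set (ℕ → D'))
    (h : ∀ i, Sm (S i)) : Sm (⋃ i, S i) := by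
  refine (Cardinal.mk_iUnion_le _).trans ?_
  exact Cardinal.mul_le_of_le (Cardinal.aleph0_le_mk D') hI (ciSup_le' h)

end Small

section Lemma

variable {D D' : Type} {V : Type} [NormedAddCommGroup V] [NormedSpace ℂ V]
  {ι : D' → D} {J : C(Om D, ℂ) → Prop} {pp : Om D → Om D → V}
  {k : C(Om D, ℂ) → C(Om D, ℂ) → V → ℂ} {C : ℝ}

/-- The function `θ`. -/
def th (ι : D' → D) (pp : Om D → Om D → V) (k : C(Om D, ℂ) → C(Om D, ℂ) → V → ℂ)
    (c : ℕ → D') (p q : Om D) : ℂ :=
  k (ub (ι ∘ c)) (ub (ι ∘ c)) (pp p q)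

lemma Bal.neg1 (h : Bal ι J pp k C) (a b β) : k (-a) b β = - k a b β := by
  have := h.smul1 (-1) a b β
  simpa using this

lemma Bal.sub1 (h : Bal ι J pp k C) (a a' b β) : k (a - a') b β = k a b β - k a' b β := by
  rw [sub_eq_add_neg, h.add1, h.neg1, sub_eq_add_neg]

lemma Bal.zero1' (h : Bal ι J pp k C) (b β) : k 0 b β = 0 := by
  have := h.smul1 0 0 b β
  simpa using this

lemma Bal.zero3 (h : Bal ι J pp k C) (a b) : k a b 0 = 0 := by
  have := h.smul3 0 a b 0
  rw [zero_smul, zero_mul] at this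
  exact this

lemma Bal.sum1 (h : Bal ι J pp k C) {κ : Type*} (s : Finset κ) (f : κ → C(Om D, ℂ)) (b β) :
    k (∑ i ∈ s, f i) b β = ∑ i ∈ s, k (f i) b β := by
  induction s using Finset.induction_on with
  | empty => simpa using h.zero1' b β
  | insert j s hj ih => rw [Finset.sum_insert hj, Finset.sum_insert hj, h.add1, ih]

lemma Bal.sum3 (h : Bal ι J pp k C) {κ : Type*} (s : Finset κ) (f : κ → V) (a b) :
    k a b (∑ i ∈ s, f i) = ∑ i ∈ s, k a b (f i) := by
  induction s using Finset.induction_on with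
  | empty => simpa using h.zero3 a b
  | insert j s hj ih => rw [Finset.sum_insert hj, Finset.sum_insert hj, h.add3, ih]

lemma Bal.JfR (h : Bal ι J pp k C) (c : ℕ → D') (R : ℕ) : J (fR (ι ∘ c) R) := by
  have hsum : ∀ R, J (∑ n ∈ Finset.range R, dl (pref (ι ∘ c) n)) := by
    intro R
    induction R with
    | zero =>
      have := h.Jsmul 0 _ (h.Jub c)
      simpa using this
    | succ R ih =>
      rw [Finset.sum_range_succ]
      exact h.Jadd _ _ ih (h.Jdl c R)
  unfold fR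
  rw [sub_eq_add_neg]
  refine h.Jadd _ _ (h.Jub c) ?_
  have := h.Jsmul (-1) _ (hsum R)
  simpa using this

/-- Nodes of the block. -/
def Nd (D' : Type) : Type := {x : List D' // ∃ (b : ℕ → D') (n : ℕ), pref b n = x}

lemma pref_map (ι : D' → D) (b : ℕ → D') (n : ℕ) : (pref b n).map ι = pref (ι ∘ b) n := by
  unfold pref
  rw [List.map_ofFn]
  rfl

/-- The exceptional set. -/
def exc (ι : D' → D) (pp : Om D → Om D → V) (k : C(Om D, ℂ) → C(Om D, ℂ) → V → ℂ) : Set (ℕ → D') :=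
  ⋃ (z : Nd D' × Nd D'), {c | k (dl (z.1.1.map ι)) (dl (z.1.1.map ι))
    (pp (node (z.2.1.map ι)) (br (ι ∘ c))) ≠ 0}

lemma sm_preimage_br (hι : Function.Injective ι) [Infinite D'] {f : Om D → ℂ}
    (hf : Continuous f) (h0 : f inft = 0) : Sm {c : ℕ → D' | f (br (ι ∘ c)) ≠ 0} := by
  apply sm_countable
  have h1 := countable_br hf h0
  have h2 : {c : ℕ → D' | f (br (ι ∘ c)) ≠ 0} = (fun c : ℕ → D' => ι ∘ c) ⁻¹'
    {b : ℕ → D | f (br b) ≠ 0} := rfl
  rw [h2]
  exact h1.preimage_of_injOn (hι.comp_left.injOn)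

lemma sm_exc (h : Bal ι J pp k C) (hι : Function.Injective ι) [Infinite D'] : Sm (exc ι pp k) := by
  apply sm_iUnion
  · have h1 : #(Nd D') ≤ #D' := (Cardinal.mk_subtype_le _).trans (by rw [Cardinal.mk_list_eq_mk])
    rw [Cardinal.mk_prod]
    simp only [Cardinal.lift_id]
    exact Cardinal.mul_le_of_le (Cardinal.aleph0_le_mk D') h1 h1
  · rintro ⟨⟨x, b, n, rfl⟩, y⟩
    have hJ : J (dl ((pref b n).map ι)) := by
      rw [pref_map]
      exact h.Jdl b n
    exact sm_preimage_br hι (h.cont2 _ _ hJ hJ _) (h.zero2 _ _ hJ hJ _)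

lemma exc_spec {c : ℕ → D'} (hc : c ∉ exc ι pp k) (b : ℕ → D') (n : ℕ) (b' : ℕ → D') (n' : ℕ) :
    k (dl (pref (ι ∘ b) n)) (dl (pref (ι ∘ b) n)) (pp (node (pref (ι ∘ b') n')) (br (ι ∘ c))) = 0 := by
  by_contra hcon
  apply hc
  refine Set.mem_iUnion.2 ⟨(⟨pref b n, b, n, rfl⟩, ⟨pref b' n', b', n', rfl⟩), ?_⟩
  simp only [Set.mem_ofPred_eq, pref_map]
  exact hcon

/-- Truncation does not matter. -/
lemma k_fR (h : Bal ι J pp k C) {c : ℕ → D'} (hc : c ∉ exc ι pp k) (R : ℕ) (b' : ℕ → D') (n' : ℕ)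
    {e : C(Om D, ℂ)} (he : J e) (hfe : fR (ι ∘ c) R * e = fR (ι ∘ c) R) :
    k (fR (ι ∘ c) R) e (pp (node (pref (ι ∘ b') n')) (br (ι ∘ c))) =
      th ι pp k c (node (pref (ι ∘ b') n')) (br (ι ∘ c)) := by
  set β := pp (node (pref (ι ∘ b') n')) (br (ι ∘ c)) with hβ
  have hJf := h.JfR c R
  have hJu := h.Jub c
  have e1 : k (fR (ι ∘ c) R) e β = k (fR (ι ∘ c) R) (fR (ι ∘ c) R) β := by
    conv_lhs => rw [← fR_mul_self (ι ∘ c) R]
    rw [h.bal _ _ _ _ hJf hJf he, hfe]
  have e2 : k (fR (ι ∘ c) R) (fR (ι ∘ c) R) β = k (fR (ι ∘ c) R) (ub (ι ∘ c)) β := by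
    have := h.bal (fR (ι ∘ c) R) (fR (ι ∘ c) R) (ub (ι ∘ c)) β hJf hJf hJu
    rw [fR_mul_self, fR_mul_ub] at this
    exact this.symm
  rw [e1, e2]
  have e3 : k (fR (ι ∘ c) R) (ub (ι ∘ c)) β = k (ub (ι ∘ c)) (ub (ι ∘ c)) β -
      ∑ n ∈ Finset.range R, k (dl (pref (ι ∘ c) n)) (ub (ι ∘ c)) β := by
    unfold fR
    rw [h.sub1, h.sum1]
  rw [e3, Finset.sum_eq_zero, sub_zero]
  · rfl
  · intro n _
    have hJd := h.Jdl c n
    have := h.bal (dl (pref (ι ∘ c) n)) (dl (pref (ι ∘ c) n)) (ub (ι ∘ c)) β hJd hJd hJu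
    rw [dl_mul_self, dl_mul_ub] at this
    rw [this]
    exact exc_spec hc c n b' n'

/-- Existence of a triangular configuration. -/
lemma exists_config (h : Bal ι J pp k C) (hι : Function.Injective ι) [Infinite D']
    {U : Set (ℕ → D')} (hU : ¬ Sm U) {δ : ℝ} (hδ : 0 < δ) {n₀ : ℕ}
    (hne : ∀ c ∈ U, th ι pp k c (br (ι ∘ c)) (br (ι ∘ c)) ≠ 0)
    (hclose : ∀ c ∈ U, ∀ m, n₀ ≤ m → ‖th ι pp k c (node (pref (ι ∘ c) m)) (br (ι ∘ c)) -
      th ι pp k c (br (ι ∘ c)) (br (ι ∘ c))‖ ≤ δ) (N : ℕ) :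
    ∃ (b : ℕ → D') (m : ℕ → ℕ) (c : ℕ → ℕ → D') (R : ℕ), (∀ l, c l ∈ U) ∧
      (∀ i l, i ≤ l → ‖th ι pp k (c l) (node (pref (ι ∘ b) (m i))) (br (ι ∘ c l)) -
        th ι pp k (c l) (br (ι ∘ c l)) (br (ι ∘ c l))‖ ≤ δ) ∧
      (∀ i l, l < i → ‖th ι pp k (c l) (node (pref (ι ∘ b) (m i))) (br (ι ∘ c l))‖ ≤ δ) ∧
      (∀ l l', l < N → l' < N → l ≠ l' → ∀ n, R ≤ n → pref (c l) n ≠ pref (c l') n) := by
  -- choose an extension in `U` of every node
  have hv : ∀ x : List D', ∃ v : ℕ → D', (∃ c ∈ U, ∃ n, pref c n = x) →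
      v ∈ U ∧ ∃ n, pref v n = x := by
    intro x
    by_cases hx : ∃ c ∈ U, ∃ n, pref c n = x
    · obtain ⟨c, hc, n, hn⟩ := hx
      exact ⟨c, fun _ => ⟨hc, n, hn⟩⟩
    · have : Nonempty D' := inferInstance
      exact ⟨fun _ => Classical.arbitrary D', fun h => absurd h hx⟩
  choose v hv using hv
  have hex : ∃ b ∈ U, b ∉ ⋃ (x : List D'), {b | v x ∈ U ∧
      th ι pp k (v x) (br (ι ∘ b)) (br (ι ∘ v x)) ≠ 0} := by
    by_contra hcon
    push Not at hcon
    apply hU
    refine Sm.mono (sm_iUnion (I := List D') (by rw [Cardinal.mk_list_eq_mk]) _ ?_) hcon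
    intro x
    by_cases hx : v x ∈ U
    · have hJ := h.Jub (v x)
      refine Sm.mono (sm_preimage_br hι (h.cont1 _ _ hJ hJ (br (ι ∘ v x)))
        (h.zero1 _ _ hJ hJ _)) ?_
      rintro b ⟨_, hb⟩
      exact hb
    · refine Sm.mono (sm_countable Set.countable_empty) ?_
      rintro b ⟨hb, _⟩
      exact absurd hb hx
  obtain ⟨b, hbU, hb⟩ := hex
  -- the branches leaving `b`
  let w : ℕ → ℕ → D' := fun n => v (pref b n)
  have hw1 : ∀ n, w n ∈ U := fun n => (hv (pref b n) ⟨b, hbU, n, rfl⟩).1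
  have hw2 : ∀ n, pref (w n) n = pref b n := by
    intro n
    obtain ⟨m, hm⟩ := (hv (pref b n) ⟨b, hbU, n, rfl⟩).2
    have := (pref_eq_iff.1 hm).1
    subst this
    exact hm
  have hw3 : ∀ n, th ι pp k (w n) (br (ι ∘ b)) (br (ι ∘ w n)) = 0 := by
    intro n
    by_contra hcon
    exact hb (Set.mem_iUnion.2 ⟨pref b n, hw1 n, hcon⟩)
  have hw4 : ∀ n, b ≠ w n := by
    intro n hbn
    have := hw3 n
    rw [← hbn] at this
    exact hne b hbU this
  have hM : ∀ n, ∃ M, ∀ m, M ≤ m →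
      ‖th ι pp k (w n) (node (pref (ι ∘ b) m)) (br (ι ∘ w n))‖ ≤ δ ∧ pref b m ≠ pref (w n) m := by
    intro n
    have hJ := h.Jub (w n)
    have hc : Continuous fun p => th ι pp k (w n) p (br (ι ∘ w n)) :=
      h.cont1 _ _ hJ hJ (br (ι ∘ w n))
    have ht := (hc.tendsto (br (ι ∘ b))).comp (tendsto_node (ι ∘ b))
    rw [hw3 n] at ht
    have h1 : ∀ᶠ m in atTop, ‖th ι pp k (w n) (node (pref (ι ∘ b) m)) (br (ι ∘ w n))‖ < δ := by
      have := (Metric.tendsto_nhds.1 ht) δ hδ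
      simpa using this
    obtain ⟨i, hi⟩ := Function.ne_iff.1 (hw4 n)
    have h2 : ∀ᶠ m in atTop, pref b m ≠ pref (w n) m := by
      filter_upwards [eventually_ge_atTop i] with m hm
      intro hcon
      exact hi ((pref_eq_iff.1 hcon).2 i hm)
    obtain ⟨M, hM⟩ := eventually_atTop.1 (h1.and h2)
    exact ⟨M, fun m hm => ⟨(hM m hm).1.le, (hM m hm).2⟩⟩
  choose M hM using hM
  let m : ℕ → ℕ := fun i => Nat.rec n₀ (fun _ r => max (M r) (r + 1)) i
  have hm0 : m 0 = n₀ := rfl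
  have hms : ∀ i, m (i + 1) = max (M (m i)) (m i + 1) := fun i => rfl
  have hmono : StrictMono m := strictMono_nat_of_lt_succ (fun i => by rw [hms]; omega)
  have hmn : ∀ i, n₀ ≤ m i := fun i => by
    rw [← hm0]
    exact hmono.monotone (Nat.zero_le i)
  have hmM : ∀ i l, l < i → M (m l) ≤ m i := by
    intro i l hl
    have h1 : M (m l) ≤ m (l + 1) := by rw [hms]; exact le_max_left _ _
    exact h1.trans (hmono.monotone hl)
  have hpre : ∀ i l, i ≤ l → pref (w (m l)) (m i) = pref b (m i) := by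
    intro i l hil
    have h1 := pref_eq_iff.1 (hw2 (m l))
    exact pref_eq_iff.2 ⟨rfl, fun j hj => h1.2 j (hj.trans (hmono.monotone hil))⟩
  refine ⟨b, m, fun l => w (m l), m N, fun l => hw1 _, ?_, ?_, ?_⟩
  · intro i l hil
    have h1 := hclose (w (m l)) (hw1 _) (m i) (hmn i)
    have h2 : pref (ι ∘ w (m l)) (m i) = pref (ι ∘ b) (m i) := by
      rw [← pref_map, ← pref_map, hpre i l hil]
    rw [h2] at h1
    exact h1
  · intro i l hli
    exact (hM (m l) (m i) (hmM i l hli)).1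
  · have key : ∀ l l', l < l' → l' < N → ∀ n, m N ≤ n → pref (w (m l)) n ≠ pref (w (m l')) n := by
      intro l l' hll hl' n hn hcon
      have h1 := (hM (m l) (m l') (hmM l' l hll)).2
      apply h1
      rw [← hw2 (m l')]
      have h2 := pref_eq_iff.1 hcon
      exact pref_eq_iff.2 ⟨rfl, fun j hj => (h2.2 j (by
        have := hmono hl'
        omega)).symm⟩
    intro l l' hl hl' hne' n hn
    rcases Nat.lt_or_gt_of_ne hne' with h1 | h1
    · exact key l l' h1 hl' n hn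
    · exact (key l' l h1 hl n hn).symm

/-- The core lemma. -/
theorem core (h : Bal ι J pp k C) (hι : Function.Injective ι) [Infinite D'] :
    Sm {c : ℕ → D' | th ι pp k c (br (ι ∘ c)) (br (ι ∘ c)) ≠ 0} := by
  by_contra hbad
  -- remove the exceptional set and fix a lower bound
  obtain ⟨K, hK⟩ : ∃ K : ℕ, ¬ Sm {c : ℕ → D' | c ∉ exc ι pp k ∧
      1 / ((K : ℝ) + 1) < ‖th ι pp k c (br (ι ∘ c)) (br (ι ∘ c))‖} := by
    by_contra hcon
    push Not at hcon
    apply hbad
    have h1 : Sm (⋃ i : Option ℕ, (i.elim (exc ι pp k) (fun K => {c : ℕ → D' | c ∉ exc ι pp k ∧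
      1 / ((K : ℝ) + 1) < ‖th ι pp k c (br (ι ∘ c)) (br (ι ∘ c))‖}) : Set (ℕ → D'))) := by
      apply sm_iUnion
      · exact (Cardinal.mk_le_aleph0).trans (Cardinal.aleph0_le_mk D')
      · intro i
        cases i with
        | none => exact sm_exc h hι
        | some K => exact hcon K
    refine h1.mono ?_
    intro c hc
    by_cases hce : c ∈ exc ι pp k
    · exact Set.mem_iUnion.2 ⟨none, hce⟩
    · obtain ⟨K, hK⟩ := exists_nat_one_div_lt (norm_pos_iff.2 hc)
      exact Set.mem_iUnion.2 ⟨some K, hce, hK⟩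
  obtain ⟨N, hN⟩ := triSum_large (C * Real.pi * (K + 1))
  -- choose `δ`
  let δ : ℝ := 1 / (2 * ((N : ℝ) ^ 2 + 1) * (K + 1))
  have hδ : 0 < δ := by
    show 0 < 1 / (2 * ((N : ℝ) ^ 2 + 1) * (K + 1))
    positivity
  obtain ⟨n₀, hn₀⟩ : ∃ n₀ : ℕ, ¬ Sm {c : ℕ → D' | (c ∉ exc ι pp k ∧
      1 / ((K : ℝ) + 1) < ‖th ι pp k c (br (ι ∘ c)) (br (ι ∘ c))‖) ∧
      ∀ m, n₀ ≤ m → ‖th ι pp k c (node (pref (ι ∘ c) m)) (br (ι ∘ c)) -
      th ι pp k c (br (ι ∘ c)) (br (ι ∘ c))‖ ≤ δ} := by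
    by_contra hcon
    push Not at hcon
    apply hK
    refine Sm.mono (sm_iUnion (I := ℕ) ((Cardinal.mk_le_aleph0).trans
      (Cardinal.aleph0_le_mk D')) _ hcon) ?_
    intro c hc
    have hJ := h.Jub c
    have hcont : Continuous fun p => th ι pp k c p (br (ι ∘ c)) :=
      h.cont1 _ _ hJ hJ (br (ι ∘ c))
    have ht := (hcont.tendsto (br (ι ∘ c))).comp (tendsto_node (ι ∘ c))
    have h1 := (Metric.tendsto_nhds.1 ht) δ hδ
    obtain ⟨n₀, hn₀⟩ := eventually_atTop.1 h1
    refine Set.mem_iUnion.2 ⟨n₀, hc, fun m hm => ?_⟩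
    have := hn₀ m hm
    rw [dist_eq_norm] at this
    exact this.le
  obtain ⟨b, m, c, R, hcU, hup, hlow, hdisj⟩ := exists_config h hι hn₀ hδ
    (fun c hc => by
      intro h0
      have := hc.1.2
      rw [h0, norm_zero] at this
      have h2 : 0 < 1 / ((K : ℝ) + 1) := by positivity
      linarith)
    (fun c hc => hc.2) N
  let f : ℕ → C(Om D, ℂ) := fun l => fR (ι ∘ c l) R
  let e : C(Om D, ℂ) := ∑ l ∈ Finset.range N, f l
  let t : ℕ → ℂ := fun l => th ι pp k (c l) (br (ι ∘ c l)) (br (ι ∘ c l))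
  have ht : ∀ l, 1 / ((K : ℝ) + 1) < ‖t l‖ := fun l => (hcU l).1.2
  have ht0 : ∀ l, t l ≠ 0 := by
    intro l h0
    have := ht l
    rw [h0, norm_zero] at this
    have h2 : 0 < 1 / ((K : ℝ) + 1) := by positivity
    linarith
  have htinv : ∀ l, ‖(t l)⁻¹‖ ≤ (K : ℝ) + 1 := by
    intro l
    rw [norm_inv, inv_le_comm₀ (norm_pos_iff.2 (ht0 l)) (by positivity)]
    have := (ht l).le
    rwa [one_div] at this
  have hff : ∀ l ∈ Finset.range N, f l * f l = f l := fun l _ => fR_mul_self _ _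
  have hfd : ∀ l ∈ Finset.range N, ∀ l' ∈ Finset.range N, l ≠ l' → f l * f l' = 0 := by
    intro l hl l' hl' hne'
    apply fR_mul_fR
    intro n hn hcon
    rw [Finset.mem_range] at hl hl'
    apply hdisj l l' hl hl' hne' n hn
    rw [← pref_map, ← pref_map] at hcon
    exact List.map_injective_iff.2 hι hcon
  have hfe : ∀ l ∈ Finset.range N, f l * e = f l := by
    intro l hl
    show f l * ∑ l ∈ Finset.range N, f l = f l
    rw [Finset.mul_sum, Finset.sum_eq_single l]
    · exact hff l hl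
    · intro l' hl' hne'
      exact hfd l hl l' hl' (Ne.symm hne')
    · exact fun h => absurd hl h
  have hJe : J e := by
    have : ∀ s : Finset ℕ, J (∑ l ∈ s, f l) := by
      intro s
      induction s using Finset.induction_on with
      | empty =>
        have := h.Jsmul 0 _ (h.Jub (c 0))
        simpa using this
      | insert j s hj ih =>
        rw [Finset.sum_insert hj]
        exact h.Jadd _ _ (h.JfR (c j) R) ih
    exact this _
  have hne : ‖e‖ ≤ 1 := by
    have := norm_signed_sum (Finset.range N) f (fun _ => 1) (by simp) hff hfd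
    simpa using this
  -- the bilinear forms
  let y : ℕ → Om D := fun i => node (pref (ι ∘ b) (m i))
  let β : ℕ → V := fun l => ∑ i ∈ Finset.range N,
    ((t l)⁻¹ / ((i : ℂ) - l - 1 / 2)) • pp (y i) (br (ι ∘ c l))
  have hβ : ∀ ε : ℕ → ℂ, (∀ i, ε i = 1 ∨ ε i = -1) →
      ‖∑ l ∈ Finset.range N, ε l • β l‖ ≤ Real.pi * N * (K + 1) := by
    intro ε hε
    have e1 : ∑ l ∈ Finset.range N, ε l • β l = ∑ l ∈ Finset.range N, ∑ i ∈ Finset.range N,
        ((ε l * (t l)⁻¹) / ((i : ℂ) - l - 1 / 2)) • pp (y i) (br (ι ∘ c l)) := by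
      refine Finset.sum_congr rfl fun l _ => ?_
      show ε l • (∑ i ∈ Finset.range N,
        ((t l)⁻¹ / ((i : ℂ) - l - 1 / 2)) • pp (y i) (br (ι ∘ c l))) = _
      rw [Finset.smul_sum]
      refine Finset.sum_congr rfl fun i _ => ?_
      rw [smul_smul, mul_div_assoc]
    rw [e1]
    refine h.hilb N y (fun l => br (ι ∘ c l)) _ ((K : ℝ) + 1) (by positivity) fun l => ?_
    rw [norm_mul]
    have h1 : ‖ε l‖ = 1 := by rcases hε l with h | h <;> simp [h]
    rw [h1, one_mul]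
    exact htinv l
  have hsign := sign_trick' (B := fun a β => k a e β) (fun x x' y => h.add1 x x' e y)
    (fun c x y => h.smul1 c x e y) (fun x y y' => h.add3 x e y y')
    (fun c x y => h.smul3 c x e y) (Finset.range N) f β (C * (Real.pi * N * (K + 1))) 0 0 (by
      intro ε hε
      have z1 : (0 : C(Om D, ℂ)) + ∑ l ∈ Finset.range N, ε l • f l =
        ∑ l ∈ Finset.range N, ε l • f l := zero_add _
      have z2 : (0 : V) + ∑ l ∈ Finset.range N, ε l • β l =
        ∑ l ∈ Finset.range N, ε l • β l := zero_add _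
      show ‖k (0 + ∑ l ∈ Finset.range N, ε l • f l) e
        (0 + ∑ l ∈ Finset.range N, ε l • β l)‖ ≤ _
      rw [z1, z2]
      refine (h.bound _ _ _).trans ?_
      have h1 : ‖∑ l ∈ Finset.range N, ε l • f l‖ ≤ 1 :=
        norm_signed_sum _ f ε (fun i => by rcases hε i with h | h <;> simp [h]) hff hfd
      have h2 := hβ ε hε
      have h3 : C * ‖∑ l ∈ Finset.range N, ε l • f l‖ * ‖e‖ ≤ C := by
        have h4 : C * ‖∑ l ∈ Finset.range N, ε l • f l‖ ≤ C :=
          mul_le_of_le_one_right h.nonneg h1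
        have h5 : 0 ≤ C * ‖∑ l ∈ Finset.range N, ε l • f l‖ :=
          mul_nonneg h.nonneg (norm_nonneg _)
        exact (mul_le_of_le_one_right h5 hne).trans h4
      exact mul_le_mul h3 h2 (norm_nonneg _) h.nonneg)
  simp only [h.zero1', zero_add] at hsign
  -- compute the sum
  have hterm : ∀ l ∈ Finset.range N, k (f l) e (β l) = ∑ i ∈ Finset.range N,
      ((t l)⁻¹ / ((i : ℂ) - l - 1 / 2)) * th ι pp k (c l) (y i) (br (ι ∘ c l)) := by
    intro l hl
    show k (f l) e (∑ i ∈ Finset.range N,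
      ((t l)⁻¹ / ((i : ℂ) - l - 1 / 2)) • pp (y i) (br (ι ∘ c l))) = _
    rw [h.sum3]
    refine Finset.sum_congr rfl fun i _ => ?_
    rw [h.smul3]
    congr 1
    exact k_fR h (hcU l).1.1 R b (m i) hJe (hfe l hl)
  rw [Finset.sum_congr rfl hterm] at hsign
  -- compare with the triangular sum
  have herr : ∀ l ∈ Finset.range N, ∀ i ∈ Finset.range N,
      ‖((t l)⁻¹ / ((i : ℂ) - l - 1 / 2)) * th ι pp k (c l) (y i) (br (ι ∘ c l)) -
        (if i ≤ l then 1 / ((i : ℂ) - l - 1 / 2) else 0)‖ ≤ 2 * (((K : ℝ) + 1) * δ) := by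
    intro l _ i _
    have hden : (1 : ℝ) / 2 ≤ ‖(i : ℂ) - l - 1 / 2‖ := by
      have h1 : ((i : ℂ) - l - 1 / 2) = (((i : ℝ) - l - 1 / 2 : ℝ) : ℂ) := by
        push_cast
        ring
      rw [h1, Complex.norm_real, Real.norm_eq_abs]
      rcases Nat.lt_or_ge l i with hli | hli
      · have h2 : (l : ℝ) + 1 ≤ i := by exact_mod_cast hli
        rw [abs_of_nonneg (by linarith)]
        linarith
      · have h2 : (i : ℝ) ≤ l := by exact_mod_cast hli
        rw [abs_of_nonpos (by linarith)]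
        linarith
    have hdinv : ‖((i : ℂ) - l - 1 / 2)⁻¹‖ ≤ 2 := by
      rw [norm_inv]
      rw [inv_le_comm₀ (by linarith) (by norm_num)]
      linarith
    have hne0 : ((i : ℂ) - l - 1 / 2) ≠ 0 := by
      intro h0
      rw [h0, norm_zero] at hden
      linarith
    split_ifs with hil
    · have e1 : ((t l)⁻¹ / ((i : ℂ) - l - 1 / 2)) * th ι pp k (c l) (y i) (br (ι ∘ c l)) -
          1 / ((i : ℂ) - l - 1 / 2) = ((i : ℂ) - l - 1 / 2)⁻¹ * ((t l)⁻¹ *
            (th ι pp k (c l) (y i) (br (ι ∘ c l)) - t l)) := by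
        rw [mul_sub, inv_mul_cancel₀ (ht0 l)]
        field_simp
      rw [e1, norm_mul, norm_mul]
      have h1 : ‖th ι pp k (c l) (y i) (br (ι ∘ c l)) - t l‖ ≤ δ := hup i l hil
      exact mul_le_mul hdinv (mul_le_mul (htinv l) h1 (norm_nonneg _) (by positivity))
        (by positivity) (by norm_num)
    · have e1 : ((t l)⁻¹ / ((i : ℂ) - l - 1 / 2)) * th ι pp k (c l) (y i) (br (ι ∘ c l)) - 0 =
          ((i : ℂ) - l - 1 / 2)⁻¹ * ((t l)⁻¹ * th ι pp k (c l) (y i) (br (ι ∘ c l))) := by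
        rw [sub_zero, div_eq_mul_inv]
        ring
      rw [e1, norm_mul, norm_mul]
      have h1 : ‖th ι pp k (c l) (y i) (br (ι ∘ c l))‖ ≤ δ := hlow i l (not_le.1 hil)
      exact mul_le_mul hdinv (mul_le_mul (htinv l) h1 (norm_nonneg _) (by positivity))
        (by positivity) (by norm_num)
  have htri : ∑ l ∈ Finset.range N, ∑ i ∈ Finset.range N,
      (if i ≤ l then 1 / ((i : ℂ) - l - 1 / 2) else 0) = -((triSum N : ℝ) : ℂ) := by
    unfold triSum
    rw [Finset.sum_comm]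
    push_cast
    rw [← Finset.sum_neg_distrib]
    refine Finset.sum_congr rfl fun i _ => ?_
    rw [← Finset.sum_neg_distrib]
    refine Finset.sum_congr rfl fun l _ => ?_
    split_ifs with h
    · push_cast
      rw [← one_div_neg_eq_neg_one_div]
      congr 1
      ring
    · simp
  have hfinal : ‖((triSum N : ℝ) : ℂ)‖ ≤ C * (Real.pi * N * (K + 1)) + 1 := by
    have e1 : ((triSum N : ℝ) : ℂ) = (∑ l ∈ Finset.range N, ∑ i ∈ Finset.range N,
        (((t l)⁻¹ / ((i : ℂ) - l - 1 / 2)) * th ι pp k (c l) (y i) (br (ι ∘ c l)) -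
        (if i ≤ l then 1 / ((i : ℂ) - l - 1 / 2) else 0))) -
        ∑ l ∈ Finset.range N, ∑ i ∈ Finset.range N,
          ((t l)⁻¹ / ((i : ℂ) - l - 1 / 2)) * th ι pp k (c l) (y i) (br (ι ∘ c l)) := by
      simp only [Finset.sum_sub_distrib]
      rw [htri]
      ring
    rw [e1]
    refine (norm_sub_le _ _).trans ?_
    rw [add_comm]
    refine add_le_add hsign ?_
    refine (norm_sum_le _ _).trans ?_
    have h1 : ∀ l ∈ Finset.range N, ‖∑ i ∈ Finset.range N,
        (((t l)⁻¹ / ((i : ℂ) - l - 1 / 2)) * th ι pp k (c l) (y i) (br (ι ∘ c l)) -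
        (if i ≤ l then 1 / ((i : ℂ) - l - 1 / 2) else 0))‖ ≤ N * (2 * (((K : ℝ) + 1) * δ)) := by
      intro l hl
      refine (norm_sum_le _ _).trans ?_
      refine (Finset.sum_le_sum fun i hi => herr l hl i hi).trans ?_
      rw [Finset.sum_const, Finset.card_range, nsmul_eq_mul]
    refine (Finset.sum_le_sum h1).trans ?_
    rw [Finset.sum_const, Finset.card_range, nsmul_eq_mul]
    show (N : ℝ) * (N * (2 * (((K : ℝ) + 1) * (1 / (2 * ((N : ℝ) ^ 2 + 1) * (K + 1)))))) ≤ 1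
    have hK0 : ((K : ℝ) + 1) ≠ 0 := by positivity
    have e2 : (N : ℝ) * (N * (2 * (((K : ℝ) + 1) * (1 / (2 * ((N : ℝ) ^ 2 + 1) * (K + 1)))))) =
        (N : ℝ) ^ 2 / ((N : ℝ) ^ 2 + 1) := by
      field_simp
    rw [e2, div_le_one (by positivity)]
    linarith
  rw [Complex.norm_real] at hfinal
  have := le_abs_self (triSum N)
  rw [Real.norm_eq_abs] at hfinal
  nlinarith

end Lemma

end

end Pool.Agent.Helper5.Sym
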