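import Pool.Agent.Helper5.Sym.Kmap

/-!
Choice of the block sizes and of the branches.
-/

open Cardinal Finset

namespace Pool.Agent.Helper5.Sym

noncomputable section

/-- A cardinal above `μ` which is smaller than its power with countable exponent. -/
def big (μ : Cardinal.{0}) : Cardinal.{0} := Cardinal.sum fun n : ℕ => Order.succ^[n] (max μ ℵ₀)

lemma le_big (μ : Cardinal.{0}) (n : ℕ) : Order.succ^[n] (max μ ℵ₀) ≤ big μ :=
  Cardinal.le_sum (fun n : ℕ => Order.succ^[n] (max μ ℵ₀)) n

lemma self_le_big (μ : Cardinal.{0}) : μ ≤ big μ := (le_max_left _ _).trans (le_big μ 0)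

lemma aleph0_le_big (μ : Cardinal.{0}) : ℵ₀ ≤ big μ := (le_max_right _ _).trans (le_big μ 0)

lemma big_lt (μ : Cardinal.{0}) : big μ < big μ ^ ℵ₀ := by
  have h1 : ∀ n : ℕ, Order.succ^[n] (max μ ℵ₀) < big μ := by
    intro n
    refine lt_of_lt_of_le ?_ (le_big μ (n + 1))
    rw [Function.iterate_succ_apply']
    exact Order.lt_succ _
  have h2 := Cardinal.sum_lt_prod (fun n : ℕ => Order.succ^[n] (max μ ℵ₀)) (fun _ => big μ) h1
  rw [Cardinal.prod_const'] at h2
  simpa [big] using h2

/-- The block sizes. -/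
def kap : ℕ → Cardinal.{0}
  | 0 => big ℵ₀
  | n + 1 => big (kap n ^ ℵ₀)

lemma aleph0_le_kap (n : ℕ) : ℵ₀ ≤ kap n := by
  cases n
  · exact aleph0_le_big _
  · exact aleph0_le_big _

lemma kap_lt (n : ℕ) : kap n < kap n ^ ℵ₀ := by
  cases n
  · exact big_lt _
  · exact big_lt _

lemma kap_pow_le (n : ℕ) : kap n ^ ℵ₀ ≤ kap (n + 1) := self_le_big _

lemma kap_mono : Monotone kap :=
  monotone_nat_of_le_succ fun n => (kap_lt n).le.trans (kap_pow_le n)

/-- The blocks. -/
def EE (n : ℕ) : Type := (kap n).out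

lemma mk_EE (n : ℕ) : #(EE n) = kap n := Cardinal.mk_out _

instance (n : ℕ) : Infinite (EE n) := by
  rw [Cardinal.infinite_iff, mk_EE]
  exact aleph0_le_kap n

lemma mk_branch (n : ℕ) : #(ℕ → EE n) = kap n ^ ℵ₀ := by
  rw [← mk_EE, Cardinal.mk_arrow]
  simp

lemma mk_pi_le (n : ℕ) : #(∀ i : Fin n, ℕ → EE i) ≤ #(EE n) := by
  rw [Cardinal.mk_pi, mk_EE]
  have h1 : Cardinal.prod (fun i : Fin n => #(ℕ → EE i)) ≤
      Cardinal.prod (fun _ : Fin n => kap n) := by
    refine Cardinal.prod_le_prod _ _ fun i => ?_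
    rw [mk_branch]
    exact (kap_pow_le i).trans (kap_mono i.2)
  refine h1.trans ?_
  rw [Cardinal.prod_const']
  simp only [Cardinal.mk_fin]
  exact_mod_cast Cardinal.power_nat_le (aleph0_le_kap n)

/-- The choice of branches. -/
lemma select (m : ℕ) (bad : (∀ j, ℕ → EE j) → ℕ → Prop)
    (h : ∀ j < m, ∀ c : ∀ j, ℕ → EE j, Sm {b : ℕ → EE j | bad (Function.update c j b) j}) :
    ∃ c : ∀ j, ℕ → EE j, ∀ j < m, ¬ bad c j := by
  have key : ∀ s ≤ m, ∃ c : ∀ j, ℕ → EE j, ∀ c' : ∀ j, ℕ → EE j,
      (∀ i, m - s ≤ i → c' i = c i) → ∀ j, m - s ≤ j → j < m → ¬ bad c' j := by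
    intro s
    induction s with
    | zero =>
      intro _
      refine ⟨fun j _ => Classical.arbitrary _, fun c' _ j h1 h2 => ?_⟩
      omega
    | succ s ih =>
      intro hs
      obtain ⟨c, hc⟩ := ih (by omega)
      set t := m - (s + 1) with ht
      have hts : m - s = t + 1 := by omega
      rw [hts] at hc
      have htm : t < m := by omega
      set cx : (∀ i : Fin t, ℕ → EE i) → ∀ j, ℕ → EE j := fun x j =>
        if hj : j < t then x ⟨j, hj⟩ else c j with hcx
      have hsm : Sm (⋃ x : (∀ i : Fin t, ℕ → EE i),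
          {b : ℕ → EE t | bad (Function.update (cx x) t b) t}) :=
        sm_iUnion (mk_pi_le t) _ fun x => h t htm (cx x)
      obtain ⟨b, hb⟩ : ∃ b : ℕ → EE t, b ∉ ⋃ x : (∀ i : Fin t, ℕ → EE i),
          {b : ℕ → EE t | bad (Function.update (cx x) t b) t} := by
        by_contra hcon
        push Not at hcon
        have h1 : (⋃ x : (∀ i : Fin t, ℕ → EE i),
          {b : ℕ → EE t | bad (Function.update (cx x) t b) t}) = Set.univ :=
          Set.eq_univ_of_forall hcon
        rw [h1] at hsm
        unfold Sm at hsm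
        rw [Cardinal.mk_univ, mk_branch, mk_EE] at hsm
        exact absurd hsm (not_le.2 (kap_lt t))
      refine ⟨Function.update c t b, fun c' hc' j h1 h2 => ?_⟩
      rcases Nat.eq_or_lt_of_le h1 with h3 | h3
      · subst h3
        intro hbad
        apply hb
        rw [Set.mem_iUnion]
        refine ⟨fun i => c' i, ?_⟩
        rw [Set.mem_ofPred_eq]
        have h4 : Function.update (cx fun i => c' i) t b = c' := by
          funext i
          by_cases hi : i = t
          · subst hi
            rw [Function.update_self, hc' _ le_rfl, Function.update_self]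
          · rw [Function.update_of_ne hi, hcx]
            by_cases hi2 : i < t
            · simp only [hi2, dif_pos]
            · simp only [hi2, dif_neg, not_false_eq_true]
              rw [hc' i (by omega), Function.update_of_ne hi]
        rw [h4]
        exact hbad
      · refine hc c' (fun i hi => ?_) j h3 h2
        rw [hc' i (by omega), Function.update_of_ne (by omega)]
  obtain ⟨c, hc⟩ := key m le_rfl
  exact ⟨c, fun j hj => hc c (fun _ _ => rfl) j (by omega) hj⟩

/-- The cocycle is not a coboundary. -/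
theorem cocy_not_coboundary {m : ℕ} (hm : 0 < m)
    (g : (Fin (m + 1) → C(Om (Σ j, EE j), ℂ)) → XX (Σ j, EE j) m) (hg : IsCochain (m + 1) g)
    (hcob : ∀ a, coboundary (trivAct (eps (Σ j, EE j))) g a = cocy a) : False := by
  obtain ⟨c, hc⟩ := select m (fun c j => tau g c j ≠ 0)
    (fun j hj c => tau_small hg hcob c hj)
  have h1 := sum_tau hg hcob hm c
  rw [sum_eq_zero] at h1
  · exact zero_ne_one h1
  · intro j hj
    have := hc j (mem_range.1 hj)
    rwa [not_not] at this

end

end Pool.Agent.Helper5.Sym
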