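import Mathlib
import Pool.Agent.Helper5.Sym.Defs
import Pool.Agent.Helper5.Sym.Bar

/-!
The coboundary of a normalised cochain with trivial coefficients.
-/

namespace Pool.Agent.Helper5.Sym

open Finset

noncomputable section

/-- Omit one entry. -/
def skipN {A : Type*} (i : ℕ) (x : ℕ → A) : ℕ → A := fun k => if k < i then x k else x (k + 1)

section

variable {A : Type*} [NormedCommRing A] [NormedAlgebra ℂ A] {X : Type*} [NormedAddCommGroup X]
  [NormedSpace ℂ X]

/-- The projection onto the kernel of a character. -/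
def proj (ε : A →ₐ[ℂ] ℂ) (a : A) : A := a - ε a • (1 : A)

lemma proj_mul (ε : A →ₐ[ℂ] ℂ) (a b : A) :
    proj ε (a * b) = proj ε a * proj ε b + ε a • proj ε b + ε b • proj ε a := by
  unfold proj
  rw [map_mul]
  simp only [Algebra.smul_def, mul_one]
  rw [map_mul]
  ring

lemma proj_add (ε : A →ₐ[ℂ] ℂ) (a b : A) : proj ε (a + b) = proj ε a + proj ε b := by
  unfold proj
  rw [map_add, add_smul]
  abel

lemma proj_smul (ε : A →ₐ[ℂ] ℂ) (c : ℂ) (a : A) : proj ε (c • a) = c • proj ε a := by
  unfold proj
  rw [map_smul, smul_sub, smul_smul, smul_eq_mul]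

lemma char_proj (ε : A →ₐ[ℂ] ℂ) (a : A) : ε (proj ε a) = 0 := by
  unfold proj
  rw [map_sub, map_smul, map_one, smul_eq_mul, mul_one, sub_self]

lemma proj_of_zero (ε : A →ₐ[ℂ] ℂ) {a : A} (h : ε a = 0) : proj ε a = a := by
  unfold proj
  rw [h, zero_smul, sub_zero]

/-- The trivial action at the character. -/
def trivAct (ε : A →ₐ[ℂ] ℂ) (a : A) (x : X) : X := ε a • x

lemma res_merge_proj (ε : A →ₐ[ℂ] ℂ) {n : ℕ} (f : (Fin n → A) → X) (hf : IsMultilin f)
    (x : ℕ → A) {i : ℕ} (hi : i < n) :
    f (res n fun k => proj ε (mergeN i x k)) =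
      f (res n (mergeN i fun k => proj ε (x k))) +
      ε (x i) • f (res n (skipN i fun k => proj ε (x k))) +
      ε (x (i + 1)) • f (res n (skipN (i + 1) fun k => proj ε (x k))) := by
  set y : ℕ → A := fun k => proj ε (x k) with hy
  have e0 : (fun k => proj ε (mergeN i x k)) = Function.update (mergeN i y) i
      (y i * y (i + 1) + ε (x i) • y (i + 1) + ε (x (i + 1)) • y i) := by
    funext k
    by_cases hk : k = i
    · subst hk
      rw [Function.update_self, mergeN_eq, proj_mul]
    · rw [Function.update_of_ne hk]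
      rcases Nat.lt_or_ge k i with h | h
      · rw [mergeN_lt _ h, mergeN_lt _ h]
      · rw [mergeN_gt _ (by omega), mergeN_gt _ (by omega)]
  have e1 : Function.update (mergeN i y) i (y i * y (i + 1)) = mergeN i y := by
    rw [← mergeN_eq, Function.update_eq_self]
  have e2 : Function.update (mergeN i y) i (y (i + 1)) = skipN i y := by
    funext k
    by_cases hk : k = i
    · subst hk
      rw [Function.update_self]
      simp [skipN]
    · rw [Function.update_of_ne hk]
      rcases Nat.lt_or_ge k i with h | h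
      · rw [mergeN_lt _ h]
        simp [skipN, h]
      · rw [mergeN_gt _ (by omega)]
        have : ¬ k < i := by omega
        simp [skipN, this]
  have e3 : Function.update (mergeN i y) i (y i) = skipN (i + 1) y := by
    funext k
    by_cases hk : k = i
    · subst hk
      rw [Function.update_self]
      simp [skipN]
    · rw [Function.update_of_ne hk]
      rcases Nat.lt_or_ge k i with h | h
      · rw [mergeN_lt _ h]
        have : k < i + 1 := by omega
        simp [skipN, this]
      · rw [mergeN_gt _ (by omega)]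
        have : ¬ k < i + 1 := by omega
        simp [skipN, this]
  rw [e0, hf.update_add _ hi, hf.update_add _ hi, hf.update_smul _ hi, hf.update_smul _ hi,
    e1, e2, e3]

/-- The coboundary of a normalised cochain is the bar differential. -/
lemma coboundary_comp (ε : A →ₐ[ℂ] ℂ) {n : ℕ} (f : (Fin n → A) → X) (hf : IsMultilin f)
    (a : Fin (n + 1) → A) :
    coboundary (trivAct ε) (fun b : Fin n → A => f fun k => proj ε (b k)) a =
      barD f fun k => proj ε (a k) := by
  obtain ⟨x, rfl⟩ := exists_res a
  set y : ℕ → A := fun k => proj ε (x k) with hy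
  let c : ℕ → X := fun i => (-1 : ℂ) ^ i • ε (x i) • f (res n (skipN i y))
  have h0 : (fun k : Fin n => proj ε (res (n + 1) x k.succ)) = res n (skipN 0 y) := by
    funext k
    simp [res, skipN, y]
  have hn : (fun k : Fin n => proj ε (res (n + 1) x k.castSucc)) = res n (skipN n y) := by
    funext k
    simp [res, skipN, y]
  have hb : (fun k => proj ε (res (n + 1) x k)) = res (n + 1) y := rfl
  have hm : ∀ i ∈ range n, (-1 : ℂ) ^ (i + 1) • f (fun k => proj ε (mergeAt i (res (n + 1) x) k)) =
      (-1 : ℂ) ^ (i + 1) • f (mergeAt i (res (n + 1) y)) + (c (i + 1) - c i) := by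
    intro i hi
    rw [mergeAt_res, mergeAt_res]
    have := res_merge_proj ε f hf x (mem_range.1 hi)
    have e : (fun k => proj ε (res n (mergeN i x) k)) = res n fun k => proj ε (mergeN i x k) := rfl
    rw [e, this]
    show _ = _ + ((-1 : ℂ) ^ (i + 1) • ε (x (i + 1)) • f (res n (skipN (i + 1) y)) -
      (-1 : ℂ) ^ i • ε (x i) • f (res n (skipN i y)))
    rw [smul_add, smul_add, pow_succ]
    module
  unfold coboundary barD trivAct
  beta_reduce
  rw [h0, hn, hb, sum_congr rfl hm, sum_add_distrib, sum_range_sub]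
  have e0 : res (n + 1) x 0 = x 0 := rfl
  have en : res (n + 1) x (Fin.last n) = x n := by simp [res]
  rw [e0, en]
  show ε (x 0) • f (res n (skipN 0 y)) + (∑ i ∈ range n, (-1 : ℂ) ^ (i + 1) •
    f (mergeAt i (res (n + 1) y)) + ((-1 : ℂ) ^ n • ε (x n) • f (res n (skipN n y)) -
    (-1 : ℂ) ^ 0 • ε (x 0) • f (res n (skipN 0 y)))) +
    (-1 : ℂ) ^ (n + 1) • ε (x n) • f (res n (skipN n y)) = _
  rw [pow_succ]
  module

/-- On the kernel of the character the coboundary is the bar differential. -/
lemma coboundary_of_zero (ε : A →ₐ[ℂ] ℂ) {n : ℕ} (f : (Fin n → A) → X)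
    (a : Fin (n + 1) → A) (ha : ∀ k, ε (a k) = 0) :
    coboundary (trivAct ε) f a = barD f a := by
  unfold coboundary barD trivAct
  rw [ha, ha]
  simp

end

end

end Pool.Agent.Helper5.Sym
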