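import Mathlib
import Pool.Agent.Helper5.Sym.Defs
import Pool.Agent.Helper5.Sym.Bar
import Pool.Agent.Helper5.Sym.Tele
import Pool.Agent.Helper5.Sym.Space

/-!
The universal cocycle.
-/

namespace Pool.Agent.Helper5.Sym

open Finset Filter Topology

noncomputable section

/-- Bounded `(m+1)`-linear forms on `C(Ω)`. -/
def VM (D : Type) (m : ℕ) : Type :=
  ContinuousMultilinearMap ℂ (fun _ : Fin (m + 1) => C(Om D, ℂ)) ℂ

instance (D : Type) (m : ℕ) : NormedAddCommGroup (VM D m) :=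
  inferInstanceAs (NormedAddCommGroup
    (ContinuousMultilinearMap ℂ (fun _ : Fin (m + 1) => C(Om D, ℂ)) ℂ))

instance (D : Type) (m : ℕ) : NormedSpace ℂ (VM D m) :=
  inferInstanceAs (NormedSpace ℂ
    (ContinuousMultilinearMap ℂ (fun _ : Fin (m + 1) => C(Om D, ℂ)) ℂ))

/-- Its dual. -/
def VD (D : Type) (m : ℕ) : Type := VM D m →L[ℂ] ℂ

instance (D : Type) (m : ℕ) : NormedAddCommGroup (VD D m) :=
  inferInstanceAs (NormedAddCommGroup (VM D m →L[ℂ] ℂ))

instance (D : Type) (m : ℕ) : NormedSpace ℂ (VD D m) :=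
  inferInstanceAs (NormedSpace ℂ (VM D m →L[ℂ] ℂ))

instance (D : Type) (m : ℕ) : CompleteSpace (VD D m) :=
  inferInstanceAs (CompleteSpace (VM D m →L[ℂ] ℂ))

variable {D : Type} {m : ℕ}

/-- Evaluation of a form. -/
def ev (ψ : VM D m) (z : Fin (m + 1) → C(Om D, ℂ)) : ℂ :=
  (show ContinuousMultilinearMap ℂ (fun _ : Fin (m + 1) => C(Om D, ℂ)) ℂ from ψ) z

/-- Pairing. -/
def pr (T : VD D m) (ψ : VM D m) : ℂ := (show VM D m →L[ℂ] ℂ from T) ψ

lemma ev_add (ψ ψ' : VM D m) (z) : ev (ψ + ψ') z = ev ψ z + ev ψ' z := rfl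

lemma ev_smul (c : ℂ) (ψ : VM D m) (z) : ev (c • ψ) z = c * ev ψ z := rfl

lemma ev_sum {κ : Type*} (s : Finset κ) (ψ : κ → VM D m) (z) :
    ev (∑ i ∈ s, ψ i) z = ∑ i ∈ s, ev (ψ i) z := by
  classical
  induction s using Finset.induction_on with
  | empty => rfl
  | insert j s hj ih => rw [sum_insert hj, sum_insert hj, ev_add, ih]

lemma ev_multilin (ψ : VM D m) : IsMultilin (ev ψ) where
  map_add a i x y := by
    have h := ContinuousMultilinearMap.map_update_add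
      (show ContinuousMultilinearMap ℂ (fun _ : Fin (m + 1) => C(Om D, ℂ)) ℂ from ψ) a i x y
    exact h
  map_smul a i c x := by
    have h := ContinuousMultilinearMap.map_update_smul
      (show ContinuousMultilinearMap ℂ (fun _ : Fin (m + 1) => C(Om D, ℂ)) ℂ from ψ) a i c x
    exact h

lemma ev_norm_le (ψ : VM D m) (z) : ‖ev ψ z‖ ≤ ‖ψ‖ * ∏ i, ‖z i‖ :=
  ContinuousMultilinearMap.le_opNorm
    (show ContinuousMultilinearMap ℂ (fun _ : Fin (m + 1) => C(Om D, ℂ)) ℂ from ψ) z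

lemma vm_norm_le {ψ : VM D m} {C : ℝ} (hC : 0 ≤ C) (h : ∀ z, ‖ev ψ z‖ ≤ C * ∏ i, ‖z i‖) :
    ‖ψ‖ ≤ C :=
  ContinuousMultilinearMap.opNorm_le_bound hC h

lemma pr_add (T : VD D m) (ψ ψ') : pr T (ψ + ψ') = pr T ψ + pr T ψ' :=
  map_add (show VM D m →L[ℂ] ℂ from T) ψ ψ'

lemma pr_smul (T : VD D m) (c : ℂ) (ψ) : pr T (c • ψ) = c * pr T ψ :=
  map_smul (show VM D m →L[ℂ] ℂ from T) c ψ

lemma pr_sum (T : VD D m) {κ : Type*} (s : Finset κ) (ψ : κ → VM D m) :
    pr T (∑ i ∈ s, ψ i) = ∑ i ∈ s, pr T (ψ i) :=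
  map_sum (show VM D m →L[ℂ] ℂ from T) ψ s

lemma add_pr (T T' : VD D m) (ψ) : pr (T + T') ψ = pr T ψ + pr T' ψ := rfl

lemma sub_pr (T T' : VD D m) (ψ) : pr (T - T') ψ = pr T ψ - pr T' ψ := rfl

lemma smul_pr (c : ℂ) (T : VD D m) (ψ) : pr (c • T) ψ = c * pr T ψ := rfl

lemma zero_pr (ψ : VM D m) : pr (0 : VD D m) ψ = 0 := rfl

lemma sum_pr {κ : Type*} (s : Finset κ) (T : κ → VD D m) (ψ : VM D m) :
    pr (∑ i ∈ s, T i) ψ = ∑ i ∈ s, pr (T i) ψ := by
  classical
  induction s using Finset.induction_on with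
  | empty => rfl
  | insert j s hj ih => rw [sum_insert hj, sum_insert hj, add_pr, ih]

lemma pr_norm_le (T : VD D m) (ψ : VM D m) : ‖pr T ψ‖ ≤ ‖T‖ * ‖ψ‖ :=
  ContinuousLinearMap.le_opNorm (show VM D m →L[ℂ] ℂ from T) ψ

lemma vd_ext {T T' : VD D m} (h : ∀ ψ, pr T ψ = pr T' ψ) : T = T' :=
  ContinuousLinearMap.ext (f := (show VM D m →L[ℂ] ℂ from T)) h

lemma vd_norm_le {T : VD D m} {C : ℝ} (hC : 0 ≤ C) (h : ∀ ψ, ‖pr T ψ‖ ≤ C * ‖ψ‖) :
    ‖T‖ ≤ C := ContinuousLinearMap.opNorm_le_bound (show VM D m →L[ℂ] ℂ from T) hC h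

/-- Evaluation functionals. -/
def evalV (z : Fin (m + 1) → C(Om D, ℂ)) : VD D m :=
  LinearMap.mkContinuous
    ({ toFun := fun ψ => ev ψ z
       map_add' := fun ψ ψ' => ev_add ψ ψ' z
       map_smul' := fun c ψ => ev_smul c ψ z } : VM D m →ₗ[ℂ] ℂ) (∏ i, ‖z i‖)
    (fun ψ => (ev_norm_le ψ z).trans (le_of_eq (mul_comm _ _)))

lemma pr_evalV (z : Fin (m + 1) → C(Om D, ℂ)) (ψ : VM D m) : pr (evalV z) ψ = ev ψ z := rfl

lemma evalV_norm_le (z : Fin (m + 1) → C(Om D, ℂ)) : ‖evalV z‖ ≤ ∏ i, ‖z i‖ := by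
  refine vd_norm_le (by positivity) fun ψ => ?_
  rw [pr_evalV, mul_comm]
  exact ev_norm_le ψ z

lemma evalV_multilin : IsMultilin (evalV : (Fin (m + 1) → C(Om D, ℂ)) → VD D m) where
  map_add a i x y := vd_ext fun ψ => by
    rw [add_pr, pr_evalV, pr_evalV, pr_evalV, (ev_multilin ψ).map_add]
  map_smul a i c x := vd_ext fun ψ => by
    rw [smul_pr, pr_evalV, pr_evalV, (ev_multilin ψ).map_smul, smul_eq_mul]

/-- The universal bar cocycle. -/
def Dm (x : Fin (m + 2) → C(Om D, ℂ)) : VD D m := barD evalV x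

lemma pr_Dm (x : Fin (m + 2) → C(Om D, ℂ)) (ψ : VM D m) : pr (Dm x) ψ = barD (ev ψ) x := by
  unfold Dm barD
  rw [sum_pr]
  refine sum_congr rfl fun i _ => ?_
  rw [smul_pr, pr_evalV, smul_eq_mul]

lemma Dm_multilin : IsMultilin (Dm : (Fin (m + 2) → C(Om D, ℂ)) → VD D m) :=
  evalV_multilin.barD

lemma prod_merge_le {n i : ℕ} (hi : i < n) (x : ℕ → C(Om D, ℂ)) :
    ∏ k ∈ range n, ‖mergeN i x k‖ ≤ ∏ k ∈ range (n + 1), ‖x k‖ := by
  rw [← prod_mergeN hi (fun k => ‖x k‖)]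
  refine prod_le_prod (fun _ _ => norm_nonneg _) fun k _ => ?_
  rcases lt_trichotomy k i with h | h | h
  · rw [mergeN_lt _ h, mergeN_lt _ h]
  · subst h
    rw [mergeN_eq, mergeN_eq]
    exact norm_mul_le _ _
  · rw [mergeN_gt _ h, mergeN_gt _ h]

lemma Dm_norm_le (x : Fin (m + 2) → C(Om D, ℂ)) : ‖Dm x‖ ≤ (m + 1) * ∏ i, ‖x i‖ := by
  obtain ⟨y, rfl⟩ := exists_res x
  unfold Dm barD
  refine (norm_sum_le _ _).trans ?_
  have h1 : ∀ i ∈ range (m + 1), ‖(-1 : ℂ) ^ (i + 1) • evalV (mergeAt i (res (m + 1 + 1) y))‖ ≤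
      ∏ i : Fin (m + 2), ‖res (m + 2) y i‖ := by
    intro i hi
    rw [norm_smul, norm_pow, norm_neg, norm_one, one_pow, one_mul, mergeAt_res]
    refine (evalV_norm_le _).trans ?_
    have e1 : ∏ k : Fin (m + 1), ‖res (m + 1) (mergeN i y) k‖ =
        ∏ k ∈ range (m + 1), ‖mergeN i y k‖ :=
      Fin.prod_univ_eq_prod_range (fun k => ‖mergeN i y k‖) (m + 1)
    have e2 : ∏ k : Fin (m + 2), ‖res (m + 2) y k‖ = ∏ k ∈ range (m + 2), ‖y k‖ :=
      Fin.prod_univ_eq_prod_range (fun k => ‖y k‖) (m + 2)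
    rw [e1, e2]
    exact prod_merge_le (mem_range.1 hi) y
  refine (sum_le_sum h1).trans ?_
  rw [sum_const, card_range, nsmul_eq_mul]
  push_cast
  exact le_rfl

instance : Nonempty (Om D) := ⟨inft⟩

/-- Evaluation at infinity. -/
def eps (D : Type) : C(Om D, ℂ) →ₐ[ℂ] ℂ := ContinuousMap.evalAlgHom ℂ ℂ inft

lemma eps_apply (a : C(Om D, ℂ)) : eps D a = a inft := rfl

/-- The coefficient module as a submodule of the dual. -/
def Xs (D : Type) (m : ℕ) : Submodule ℂ (VD D m) :=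
  (Submodule.span ℂ (Set.range fun a : Fin (m + 2) → C(Om D, ℂ) =>
    Dm fun k => proj (eps D) (a k))).topologicalClosure

lemma Dm_mem (a : Fin (m + 2) → C(Om D, ℂ)) : Dm (fun k => proj (eps D) (a k)) ∈ Xs D m :=
  Submodule.le_topologicalClosure _ (Submodule.subset_span ⟨a, rfl⟩)

lemma Xs_induction {P : VD D m → Prop} (hcl : IsClosed {T | P T}) (h0 : P 0)
    (hadd : ∀ T T', P T → P T' → P (T + T')) (hsmul : ∀ (c : ℂ) T, P T → P (c • T))
    (hD : ∀ x : Fin (m + 2) → C(Om D, ℂ), (∀ k, x k inft = 0) → P (Dm x))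
    {T : VD D m} (hT : T ∈ Xs D m) : P T := by
  let N : Submodule ℂ (VD D m) :=
    { carrier := {T | P T}
      add_mem' := fun {a b} ha hb => hadd a b ha hb
      zero_mem' := h0
      smul_mem' := fun c T hT => hsmul c T hT }
  have h1 : Xs D m ≤ N := by
    refine Submodule.topologicalClosure_minimal _ ?_ hcl
    rw [Submodule.span_le]
    rintro _ ⟨a, rfl⟩
    exact hD _ fun k => char_proj (eps D) (a k)
  exact h1 hT

/-- The coefficient module. -/
def XX (D : Type) (m : ℕ) : Type := Xs D m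

instance (D : Type) (m : ℕ) : NormedAddCommGroup (XX D m) :=
  inferInstanceAs (NormedAddCommGroup (Xs D m))

instance (D : Type) (m : ℕ) : NormedSpace ℂ (XX D m) := inferInstanceAs (NormedSpace ℂ (Xs D m))

instance (D : Type) (m : ℕ) : CompleteSpace (XX D m) :=
  (Submodule.isClosed_topologicalClosure _).completeSpace_coe

/-- The universal cocycle. -/
def cocy (a : Fin (m + 2) → C(Om D, ℂ)) : XX D m := ⟨Dm fun k => proj (eps D) (a k), Dm_mem a⟩

/-- The inclusion. -/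
def incl : XX D m →ₗ[ℂ] VD D m := (Xs D m).subtype

lemma incl_cocy (a : Fin (m + 2) → C(Om D, ℂ)) :
    incl (cocy a) = Dm fun k => proj (eps D) (a k) := rfl

lemma incl_injective : Function.Injective (incl : XX D m →ₗ[ℂ] VD D m) := Subtype.val_injective

lemma incl_norm (x : XX D m) : ‖incl x‖ = ‖x‖ := rfl

lemma proj_update {n : ℕ} (a : Fin n → C(Om D, ℂ)) (i : Fin n) (x : C(Om D, ℂ)) :
    (fun k => proj (eps D) (Function.update a i x k)) =
      Function.update (fun k => proj (eps D) (a k)) i (proj (eps D) x) := by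
  funext k
  by_cases h : k = i
  · subst h
    simp
  · rw [Function.update_of_ne h, Function.update_of_ne h]

lemma proj_norm_le (a : C(Om D, ℂ)) : ‖proj (eps D) a‖ ≤ 2 * ‖a‖ := by
  unfold proj
  refine (norm_sub_le _ _).trans ?_
  have h1 : ‖eps D a • (1 : C(Om D, ℂ))‖ ≤ ‖a‖ := by
    rw [norm_smul, norm_one, mul_one]
    exact ContinuousMap.norm_coe_le_norm a _
  linarith

lemma cocy_isCochain : IsCochain (m + 2) (cocy : (Fin (m + 2) → C(Om D, ℂ)) → XX D m) where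
  map_add a i x y := by
    apply incl_injective
    rw [map_add, incl_cocy, incl_cocy, incl_cocy, proj_update, proj_update, proj_update,
      proj_add, Dm_multilin.map_add]
  map_smul a i c x := by
    apply incl_injective
    rw [map_smul, incl_cocy, incl_cocy, proj_update, proj_update, proj_smul,
      Dm_multilin.map_smul]
  bounded := by
    refine ⟨(m + 1) * 2 ^ (m + 2), fun a => ?_⟩
    rw [← incl_norm, incl_cocy]
    refine (Dm_norm_le _).trans ?_
    rw [mul_assoc]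
    refine mul_le_mul_of_nonneg_left ?_ (by positivity)
    calc ∏ i, ‖proj (eps D) (a i)‖ ≤ ∏ i, (2 * ‖a i‖) :=
          prod_le_prod (fun _ _ => norm_nonneg _) fun i _ => proj_norm_le (a i)
      _ = 2 ^ (m + 2) * ∏ i, ‖a i‖ := by
          rw [prod_mul_distrib, prod_const, card_univ, Fintype.card_fin]

lemma incl_coboundary {n : ℕ} (f : (Fin n → C(Om D, ℂ)) → XX D m)
    (a : Fin (n + 1) → C(Om D, ℂ)) :
    incl (coboundary (trivAct (eps D)) f a) =
      coboundary (trivAct (eps D)) (fun b => incl (f b)) a := by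
  unfold coboundary trivAct
  rw [map_add, map_add, map_sum, map_smul, map_smul, map_smul]
  simp only [map_smul]

lemma cocy_cocycle (a : Fin (m + 3) → C(Om D, ℂ)) :
    coboundary (trivAct (eps D)) (cocy : (Fin (m + 2) → C(Om D, ℂ)) → XX D m) a = 0 := by
  apply incl_injective
  rw [incl_coboundary, map_zero]
  simp only [incl_cocy]
  rw [coboundary_comp (eps D) Dm Dm_multilin a]
  exact barD_barD evalV _

lemma trivAct_isSym (D : Type) (m : ℕ) :
    IsSymBimodule (trivAct (eps D) : C(Om D, ℂ) → XX D m → XX D m) where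
  add_left a b x := by unfold trivAct; rw [map_add, add_smul]
  smul_left c a x := by unfold trivAct; rw [map_smul, smul_eq_mul, mul_smul]
  add_right a x y := by unfold trivAct; rw [smul_add]
  smul_right c a x := by unfold trivAct; rw [smul_comm]
  mul_act a b x := by unfold trivAct; rw [map_mul, mul_smul]
  one_act x := by unfold trivAct; rw [map_one, one_smul]
  bounded := by
    refine ⟨1, fun a x => ?_⟩
    unfold trivAct
    rw [norm_smul, one_mul]
    exact mul_le_mul_of_nonneg_right (ContinuousMap.norm_coe_le_norm a _) (norm_nonneg _)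

end

end Pool.Agent.Helper5.Sym
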