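import Mathlib
import Pool.Agent.Helper5.Sym.Defs
import Pool.Agent.Helper5.Sym.Bar
import Pool.Agent.Helper5.Sym.Tele
import Pool.Agent.Helper5.Sym.Space
import Pool.Agent.Helper5.Sym.Univ
import Pool.Agent.Helper5.Sym.Hilb

/-!
Point forms.
-/

namespace Pool.Agent.Helper5.Sym

open Finset Filter Topology

noncomputable section

variable {D : Type} {m : ℕ}

/-- The product of point evaluations. -/
def phi (m : ℕ) (P : ℕ → Om D) : VM D m :=
  (ContinuousMultilinearMap.mkPiAlgebra ℂ (Fin (m + 1)) ℂ).compContinuousLinearMap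
    (fun k => (ContinuousMap.evalCLM ℂ (P k) : C(Om D, ℂ) →L[ℂ] ℂ))

lemma ev_phi (P : ℕ → Om D) (z : Fin (m + 1) → C(Om D, ℂ)) :
    ev (phi m P) z = ∏ k : Fin (m + 1), z k (P k) := by
  unfold ev phi
  rw [ContinuousMultilinearMap.compContinuousLinearMap_apply,
    ContinuousMultilinearMap.mkPiAlgebra_apply]
  rfl

lemma ev_phi_res (P : ℕ → Om D) (x : ℕ → C(Om D, ℂ)) :
    ev (phi m P) (res (m + 1) x) = ∏ k ∈ range (m + 1), x k (P k) := by
  rw [ev_phi]
  exact Fin.prod_univ_eq_prod_range (fun k => x k (P k)) (m + 1)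

lemma phi_norm_le (P : ℕ → Om D) : ‖phi m P‖ ≤ 1 := by
  refine vm_norm_le zero_le_one fun z => ?_
  rw [ev_phi, one_mul, norm_prod]
  exact prod_le_prod (fun _ _ => norm_nonneg _) fun k _ => ContinuousMap.norm_coe_le_norm (z k) _

/-- Nice functionals: continuous in every point, vanishing at infinity. -/
lemma pr_phi_nice {T : VD D m} (hT : T ∈ Xs D m) (P : ℕ → Om D) {k : ℕ} (hk : k < m + 1) :
    (Continuous fun q => pr T (phi m (Function.update P k q))) ∧
      pr T (phi m (Function.update P k inft)) = 0 := by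
  revert T
  intro T hT
  refine Xs_induction (P := fun T => (Continuous fun q => pr T (phi m (Function.update P k q))) ∧
    pr T (phi m (Function.update P k inft)) = 0) ?_ ?_ ?_ ?_ ?_ hT
  · have hpr : ∀ ψ : VM D m, Continuous fun T : VD D m => pr T ψ := fun ψ =>
      (ContinuousLinearMap.apply ℂ ℂ ψ).continuous
    refine IsClosed.inter ?_ (isClosed_eq (hpr _) continuous_const)
    apply isClosed_of_closure_subset
    intro T hT
    show Continuous fun q => pr T (phi m (Function.update P k q))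
    apply continuous_of_uniform_approx_of_continuous
    intro u hu
    obtain ⟨δ, hδ, hu⟩ := Metric.mem_uniformity_dist.1 hu
    obtain ⟨T', hT', hd⟩ := Metric.mem_closure_iff.1 hT δ hδ
    refine ⟨_, hT', fun q => hu ?_⟩
    rw [dist_eq_norm, ← sub_pr]
    refine (pr_norm_le _ _).trans_lt ?_
    rw [dist_eq_norm] at hd
    have := phi_norm_le (m := m) (Function.update P k q)
    have h0 := norm_nonneg (T - T')
    nlinarith
  · simp only [zero_pr]
    exact ⟨continuous_const, trivial⟩
  · rintro T T' ⟨h1, h2⟩ ⟨h3, h4⟩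
    simp only [add_pr]
    exact ⟨h1.add h3, by rw [h2, h4, add_zero]⟩
  · rintro c T ⟨h1, h2⟩
    simp only [smul_pr]
    exact ⟨continuous_const.mul h1, by rw [h2, mul_zero]⟩
  · intro x hx
    obtain ⟨y, rfl⟩ := exists_res x
    have hy : ∀ k < m + 2, y k inft = 0 := fun k hk => hx ⟨k, hk⟩
    have hm : ∀ i < m + 1, ∀ l < m + 1, mergeN i y l inft = 0 := by
      intro i hi l hl
      rcases lt_trichotomy l i with h | h | h
      · rw [mergeN_lt _ h]
        exact hy l (by omega)
      · subst h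
        rw [mergeN_eq, ContinuousMap.mul_apply, hy l (by omega), zero_mul]
      · rw [mergeN_gt _ h]
        exact hy _ (by omega)
    simp only [pr_Dm, barD, mergeAt_res, ev_phi_res]
    constructor
    · refine continuous_finsetSum _ fun i _ => ?_
      simp only [smul_eq_mul]
      refine continuous_const.mul ?_
      refine continuous_finsetProd _ fun l _ => ?_
      by_cases hlk : l = k
      · subst hlk
        simp only [Function.update_self]
        exact (mergeN i y l).continuous
      · simp only [Function.update_of_ne hlk]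
        exact continuous_const
    · refine sum_eq_zero fun i hi => ?_
      rw [prod_eq_zero (mem_range.2 hk), smul_zero]
      rw [Function.update_self]
      exact hm i (mem_range.1 hi) k hk

/-- Doubling an entry. -/
def dupN {α : Type*} (i : ℕ) (c : ℕ → α) : ℕ → α := fun k => if k ≤ i then c k else c (k - 1)

lemma dupN_le {α : Type*} {i k : ℕ} (c : ℕ → α) (h : k ≤ i) : dupN i c k = c k := by
  simp [dupN, h]

lemma dupN_gt {α : Type*} {i k : ℕ} (c : ℕ → α) (h : i < k) : dupN i c k = c (k - 1) := by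
  have : ¬ k ≤ i := by omega
  simp [dupN, this]

/-- The product of point evaluations on shorter words. -/
def phi' (m : ℕ) (c : ℕ → Om D) (z : Fin m → C(Om D, ℂ)) : ℂ := ∏ k : Fin m, z k (c k)

lemma phi'_res (c : ℕ → Om D) (x : ℕ → C(Om D, ℂ)) :
    phi' m c (res m x) = ∏ k ∈ range m, x k (c k) :=
  Fin.prod_univ_eq_prod_range (fun k => x k (c k)) m

lemma phi'_merge (c : ℕ → Om D) (x : ℕ → C(Om D, ℂ)) {i : ℕ} (hi : i < m) :
    phi' m c (res m (mergeN i x)) = ev (phi m (dupN i c)) (res (m + 1) x) := by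
  rw [phi'_res, ev_phi_res, ← prod_mergeN hi]
  refine prod_congr rfl fun k _ => ?_
  rcases lt_trichotomy k i with h | h | h
  · rw [mergeN_lt _ h, mergeN_lt _ h, dupN_le _ h.le]
  · subst h
    rw [mergeN_eq, mergeN_eq, ContinuousMap.mul_apply, dupN_le _ le_rfl, dupN_gt _ (by omega),
      Nat.add_sub_cancel]
  · rw [mergeN_gt _ h, mergeN_gt _ h, dupN_gt _ (by omega), Nat.add_sub_cancel]

/-- The coboundary of a point form. -/
def psi (m : ℕ) (c : ℕ → Om D) : VM D m :=
  ∑ i ∈ range m, (-1 : ℂ) ^ (i + 1) • phi m (dupN i c)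

lemma ev_psi (c : ℕ → Om D) : ev (psi m c) = barD (phi' m c) := by
  funext z
  obtain ⟨x, rfl⟩ := exists_res z
  unfold psi barD
  rw [ev_sum]
  refine sum_congr rfl fun i hi => ?_
  rw [ev_smul, mergeAt_res, phi'_merge c x (mem_range.1 hi), smul_eq_mul]

lemma pr_psi {T : VD D m} (hT : T ∈ Xs D m) (c : ℕ → Om D) : pr T (psi m c) = 0 := by
  refine Xs_induction (P := fun T => pr T (psi m c) = 0) ?_ ?_ ?_ ?_ ?_ hT
  · exact isClosed_eq ((ContinuousLinearMap.apply ℂ ℂ (psi m c)).continuous) continuous_const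
  · exact zero_pr _
  · intro T T' h h'
    rw [add_pr, h, h', add_zero]
  · intro c T h
    rw [smul_pr, h, mul_zero]
  · intro x _
    rw [pr_Dm, ev_psi]
    exact barD_barD _ _

/-- Inserting two entries at positions `j` and `j + 1` in place of the entry `j`. -/
def ins2 {α : Type*} (j : ℕ) (p q : α) (c : ℕ → α) : ℕ → α := fun k =>
  if k < j then c k else if k = j then p else if k = j + 1 then q else c (k - 1)

lemma ins2_other {α : Type*} {j k : ℕ} (p q p' q' : α) (c : ℕ → α) (h1 : k ≠ j)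
    (h2 : k ≠ j + 1) : ins2 j p q c k = ins2 j p' q' c k := by
  simp [ins2, h1, h2]

lemma ins2_fst {α : Type*} (j : ℕ) (p q : α) (c : ℕ → α) : ins2 j p q c j = p := by
  simp [ins2]

lemma ins2_snd {α : Type*} (j : ℕ) (p q : α) (c : ℕ → α) : ins2 j p q c (j + 1) = q := by
  simp [ins2]

lemma ins2_lt {α : Type*} {j k : ℕ} (p q : α) (c : ℕ → α) (h : k < j) :
    ins2 j p q c k = c k := by
  simp [ins2, h]

lemma ins2_gt {α : Type*} {j k : ℕ} (p q : α) (c : ℕ → α) (h : j + 1 < k) :
    ins2 j p q c k = c (k - 1) := by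
  have h1 : ¬ k < j := by omega
  have h2 : k ≠ j := by omega
  have h3 : k ≠ j + 1 := by omega
  simp [ins2, h1, h2, h3]

lemma ins2_update_fst {α : Type*} (j : ℕ) (p q r : α) (c : ℕ → α) :
    Function.update (ins2 j r q c) j p = ins2 j p q c := by
  funext k
  by_cases h : k = j
  · subst h
    rw [Function.update_self, ins2_fst]
  · rw [Function.update_of_ne h]
    by_cases h2 : k = j + 1
    · subst h2
      rw [ins2_snd, ins2_snd]
    · exact ins2_other _ _ _ _ _ h h2

lemma ins2_update_snd {α : Type*} (j : ℕ) (p q r : α) (c : ℕ → α) :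
    Function.update (ins2 j p r c) (j + 1) q = ins2 j p q c := by
  funext k
  by_cases h : k = j + 1
  · subst h
    rw [Function.update_self, ins2_snd]
  · rw [Function.update_of_ne h]
    by_cases h2 : k = j
    · subst h2
      rw [ins2_fst, ins2_fst]
    · exact ins2_other _ _ _ _ _ h2 h

/-- Splitting off two factors. -/
lemma prod_split {M : Type*} [CommMonoid M] {j : ℕ} (hj : j + 1 < m + 1) (r : ℕ → M) :
    ∏ k ∈ range (m + 1), r k = r j * (r (j + 1) *
      ∏ k ∈ ((range (m + 1)).erase j).erase (j + 1), r k) := by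
  rw [mul_prod_erase _ _ (mem_erase.2 ⟨by omega, mem_range.2 hj⟩),
    mul_prod_erase _ _ (mem_range.2 (by omega))]

/-- The Hilbert estimate for point forms. -/
lemma hilb_phi {j : ℕ} (hj : j + 1 < m + 1) (c : ℕ → Om D) (N : ℕ) (y z : ℕ → Om D)
    (s : ℕ → ℂ) (S : ℝ) (hS : 0 ≤ S) (hs : ∀ l, ‖s l‖ ≤ S) :
    ‖∑ l ∈ range N, ∑ i ∈ range N, (s l / ((i : ℂ) - l - 1 / 2)) •
      phi m (ins2 j (y i) (z l) c)‖ ≤ Real.pi * N * S := by
  refine vm_norm_le (by positivity) fun a => ?_
  obtain ⟨x, rfl⟩ := exists_res a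
  set R : ℂ := ∏ k ∈ ((range (m + 1)).erase j).erase (j + 1), x k (ins2 j inft inft c k) with hR
  have e1 : ∀ p q : Om D, ev (phi m (ins2 j p q c)) (res (m + 1) x) =
      x j p * (x (j + 1) q * R) := by
    intro p q
    rw [ev_phi_res, prod_split hj, ins2_fst, ins2_snd]
    congr 2
    refine prod_congr rfl fun k hk => ?_
    rw [mem_erase, mem_erase] at hk
    rw [ins2_other p q inft inft c hk.2.1 hk.1]
  have e2 : ev (∑ l ∈ range N, ∑ i ∈ range N, (s l / ((i : ℂ) - l - 1 / 2)) •
      phi m (ins2 j (y i) (z l) c)) (res (m + 1) x) = R * ∑ i ∈ range N, ∑ l ∈ range N,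
        (x j (y i)) * (s l * x (j + 1) (z l)) / ((i : ℂ) - l - 1 / 2) := by
    rw [ev_sum, sum_comm (s := range N) (t := range N) (f := fun i l =>
      (x j (y i)) * (s l * x (j + 1) (z l)) / ((i : ℂ) - l - 1 / 2)), mul_sum]
    refine sum_congr rfl fun l _ => ?_
    rw [ev_sum, mul_sum]
    refine sum_congr rfl fun i _ => ?_
    rw [ev_smul, e1]
    ring
  have e3 : ∏ i : Fin (m + 1), ‖res (m + 1) x i‖ = ‖x j‖ * (‖x (j + 1)‖ *
      ∏ k ∈ ((range (m + 1)).erase j).erase (j + 1), ‖x k‖) := by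
    have := prod_split hj (fun k => ‖x k‖)
    rw [← this]
    exact Fin.prod_univ_eq_prod_range (fun k => ‖x k‖) (m + 1)
  have hRn : ‖R‖ ≤ ∏ k ∈ ((range (m + 1)).erase j).erase (j + 1), ‖x k‖ := by
    rw [hR, norm_prod]
    exact prod_le_prod (fun _ _ => norm_nonneg _) fun k _ =>
      ContinuousMap.norm_coe_le_norm (x k) _
  rw [e2, norm_mul, e3]
  have h1 := hilbert N (fun i => x j (y i)) (fun l => s l * x (j + 1) (z l))
    (norm_nonneg (x j)) (by positivity : 0 ≤ S * ‖x (j + 1)‖)
    (fun i => ContinuousMap.norm_coe_le_norm (x j) _)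
    (fun l => by
      rw [norm_mul]
      exact mul_le_mul (hs l) (ContinuousMap.norm_coe_le_norm (x (j + 1)) _) (norm_nonneg _) hS)
  calc ‖R‖ * ‖∑ i ∈ range N, ∑ l ∈ range N,
        (x j (y i)) * (s l * x (j + 1) (z l)) / ((i : ℂ) - l - 1 / 2)‖
      ≤ (∏ k ∈ ((range (m + 1)).erase j).erase (j + 1), ‖x k‖) *
          (Real.pi * N * (‖x j‖ * (S * ‖x (j + 1)‖))) :=
        mul_le_mul hRn h1 (norm_nonneg _) (prod_nonneg fun _ _ => norm_nonneg _)
    _ = _ := by ring

end

end Pool.Agent.Helper5.Sym
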