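import Mathlib
import Pool.Agent.Helper5.Sym.Defs
import Pool.Agent.Helper5.Sym.Bar
import Pool.Agent.Helper5.Sym.Tele
import Pool.Agent.Helper5.Sym.Space
import Pool.Agent.Helper5.Sym.Univ
import Pool.Agent.Helper5.Sym.Hilb
import Pool.Agent.Helper5.Sym.Point
import Pool.Agent.Helper5.Sym.Core

/-!
Consequences of the universal cocycle being a coboundary.
-/

namespace Pool.Agent.Helper5.Sym

open Finset Filter Topology

noncomputable section

section K

variable {D : Type} {m : ℕ} {g : (Fin (m + 1) → C(Om D, ℂ)) → XX D m}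

/-- The deviation of `g` from the identity. -/
def Kf (g : (Fin (m + 1) → C(Om D, ℂ)) → XX D m) (ψ : VM D m)
    (z : Fin (m + 1) → C(Om D, ℂ)) : ℂ := ev ψ z - pr (incl (g z)) ψ

lemma incl_mem (x : XX D m) : incl x ∈ Xs D m := x.2

lemma Kf_add (ψ ψ' : VM D m) (z) : Kf g (ψ + ψ') z = Kf g ψ z + Kf g ψ' z := by
  unfold Kf
  rw [ev_add, pr_add]
  ring

lemma Kf_smul (c : ℂ) (ψ : VM D m) (z) : Kf g (c • ψ) z = c * Kf g ψ z := by
  unfold Kf
  rw [ev_smul, pr_smul]
  ring

lemma Kf_sum {κ : Type*} (s : Finset κ) (ψ : κ → VM D m) (z) :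
    Kf g (∑ i ∈ s, ψ i) z = ∑ i ∈ s, Kf g (ψ i) z := by
  unfold Kf
  rw [ev_sum, pr_sum, sum_sub_distrib]

lemma Kf_psi (c : ℕ → Om D) (z) : Kf g (psi m c) z = ev (psi m c) z := by
  unfold Kf
  rw [pr_psi (incl_mem _), sub_zero]

variable (hg : IsCochain (m + 1) g)

include hg in
lemma Kf_multilin (ψ : VM D m) : IsMultilin (Kf g ψ) where
  map_add a i x y := by
    unfold Kf
    rw [(ev_multilin ψ).map_add, hg.map_add, map_add, add_pr]
    ring
  map_smul a i c x := by
    unfold Kf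
    rw [(ev_multilin ψ).map_smul, hg.map_smul, map_smul, smul_pr, smul_eq_mul, smul_eq_mul]
    ring

include hg in
lemma Kf_bound : ∃ C : ℝ, 0 ≤ C ∧ ∀ (ψ : VM D m) z, ‖Kf g ψ z‖ ≤ C * ‖ψ‖ * ∏ i, ‖z i‖ := by
  obtain ⟨C, hC⟩ := hg.bounded
  refine ⟨1 + |C|, by positivity, fun ψ z => ?_⟩
  unfold Kf
  have h1 := ev_norm_le ψ z
  have h2 := pr_norm_le (incl (g z)) ψ
  rw [incl_norm] at h2
  have h3 := hC z
  have h4 : 0 ≤ ∏ i, ‖z i‖ := prod_nonneg fun _ _ => norm_nonneg _
  have h5 : ‖g z‖ ≤ |C| * ∏ i, ‖z i‖ :=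
    h3.trans (mul_le_mul_of_nonneg_right (le_abs_self C) h4)
  have h6 : ‖g z‖ * ‖ψ‖ ≤ (|C| * ∏ i, ‖z i‖) * ‖ψ‖ :=
    mul_le_mul_of_nonneg_right h5 (norm_nonneg _)
  calc ‖ev ψ z - pr (incl (g z)) ψ‖ ≤ ‖ev ψ z‖ + ‖pr (incl (g z)) ψ‖ := norm_sub_le _ _
    _ ≤ ‖ψ‖ * ∏ i, ‖z i‖ + (|C| * ∏ i, ‖z i‖) * ‖ψ‖ := add_le_add h1 (h2.trans h6)
    _ = (1 + |C|) * ‖ψ‖ * ∏ i, ‖z i‖ := by ring

lemma Kf_nice {x : ℕ → C(Om D, ℂ)} (hx : ∀ k < m + 1, x k inft = 0) (P : ℕ → Om D) {k : ℕ}
    (hk : k < m + 1) :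
    (Continuous fun q => Kf g (phi m (Function.update P k q)) (res (m + 1) x)) ∧
      Kf g (phi m (Function.update P k inft)) (res (m + 1) x) = 0 := by
  obtain ⟨h1, h2⟩ := pr_phi_nice (incl_mem (g (res (m + 1) x))) P hk
  unfold Kf
  constructor
  · refine Continuous.sub ?_ h1
    simp only [ev_phi_res]
    refine continuous_finsetProd _ fun l _ => ?_
    by_cases hlk : l = k
    · subst hlk
      simp only [Function.update_self]
      exact (x l).continuous
    · simp only [Function.update_of_ne hlk]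
      exact continuous_const
  · rw [h2, sub_zero, ev_phi_res, prod_eq_zero (mem_range.2 hk)]
    rw [Function.update_self]
    exact hx k hk

variable (hcob : ∀ a, coboundary (trivAct (eps D)) g a = cocy a)

include hcob in
lemma barD_Kf (ψ : VM D m) {x : Fin (m + 2) → C(Om D, ℂ)} (hx : ∀ k, x k inft = 0) :
    barD (Kf g ψ) x = 0 := by
  have h1 : coboundary (trivAct (eps D)) g x = barD g x := coboundary_of_zero (eps D) g x hx
  have h2 : incl (barD g x) = Dm x := by
    rw [← h1, hcob, incl_cocy]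
    congr 1
    funext k
    exact proj_of_zero (eps D) (hx k)
  have h3 : pr (incl (barD g x)) ψ = ∑ i ∈ range (m + 1), (-1 : ℂ) ^ (i + 1) •
      pr (incl (g (mergeAt i x))) ψ := by
    unfold barD
    rw [map_sum, sum_pr]
    refine sum_congr rfl fun i _ => ?_
    rw [map_smul, smul_pr, smul_eq_mul]
  rw [h2, pr_Dm] at h3
  unfold barD Kf
  unfold barD at h3
  simp only [smul_sub]
  rw [sum_sub_distrib, h3, sub_self]

end K

section Blocks

variable {E : ℕ → Type}

/-- The `j`-th block of letters. -/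
def io (j : ℕ) : E j → (Σ j, E j) := Sigma.mk j

lemma io_injective (j : ℕ) : Function.Injective (io j : E j → (Σ j, E j)) :=
  sigma_mk_injective

lemma pref_ne {i j : ℕ} (hij : i ≠ j) (c : ℕ → E i) (d : ℕ → E j) (n n' : ℕ) :
    pref (io i ∘ c) n ≠ pref (io j ∘ d) n' := by
  intro h
  have := (pref_eq_iff.1 h).2 0 (Nat.zero_le _)
  exact hij (congrArg Sigma.fst this)

lemma ub_mul_ub {i j : ℕ} (hij : i ≠ j) (c : ℕ → E i) (d : ℕ → E j) :
    ub (io i ∘ c) * ub (io j ∘ d) = 0 := by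
  apply om_ext
  · intro y
    rw [ContinuousMap.mul_apply, ub_node, ub_node]
    by_cases h : ∃ n, y = pref (io i ∘ c) n
    · obtain ⟨n, rfl⟩ := h
      have h2 : ¬ ∃ n', pref (io i ∘ c) n = pref (io j ∘ d) n' := by
        rintro ⟨n', h'⟩
        exact pref_ne hij c d n n' h'
      rw [if_pos ⟨n, rfl⟩, if_neg h2, mul_zero]
      rfl
    · rw [if_neg h, zero_mul]
      rfl
  · intro b
    rw [ContinuousMap.mul_apply, ub_br, ub_br]
    by_cases h : b = io i ∘ c
    · have h2 : b ≠ io j ∘ d := by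
        rintro rfl
        exact hij (congrArg Sigma.fst (congrFun h 0)).symm
      rw [if_neg h2, mul_zero]
      rfl
    · rw [if_neg h, zero_mul]
      rfl
  · rw [ContinuousMap.mul_apply, ub_inft, zero_mul]
    rfl

lemma dl_mul_ub_ne {i j : ℕ} (hij : i ≠ j) (c : ℕ → E i) (n : ℕ) (d : ℕ → E j) :
    dl (pref (io i ∘ c) n) * ub (io j ∘ d) = 0 := by
  rw [← dl_mul_ub, mul_assoc, ub_mul_ub hij, mul_zero]

/-- Functions supported in block `j`. -/
def Jb (j : ℕ) (a : C(Om (Σ j, E j), ℂ)) : Prop :=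
  a inft = 0 ∧ ∀ i, i ≠ j → ∀ c : ℕ → E i, a * ub (io i ∘ c) = 0

/-- The indicator functions of a choice of branches. -/
def us (c : ∀ j, ℕ → E j) : ℕ → C(Om (Σ j, E j), ℂ) := fun j => ub (io j ∘ c j)

/-- The points of a choice of branches. -/
def ps (c : ∀ j, ℕ → E j) : ℕ → Om (Σ j, E j) := fun j => br (io j ∘ c j)

lemma us_inft (c : ∀ j, ℕ → E j) (j : ℕ) : us c j inft = 0 := ub_inft _

lemma us_norm (c : ∀ j, ℕ → E j) (j : ℕ) : ‖us c j‖ ≤ 1 := by
  rw [ContinuousMap.norm_le _ zero_le_one]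
  intro p
  rcases om_cases p with ⟨y, rfl⟩ | ⟨b, rfl⟩ | rfl
  · unfold us
    rw [ub_node]
    split_ifs <;> simp
  · unfold us
    rw [ub_br]
    split_ifs <;> simp
  · rw [us_inft]
    simp

lemma us_mul {c : ∀ j, ℕ → E j} {i j : ℕ} (hij : i ≠ j) : us c i * us c j = 0 :=
  ub_mul_ub hij _ _

lemma us_sq (c : ∀ j, ℕ → E j) (j : ℕ) : us c j * us c j = us c j := ub_mul_self _

lemma us_ps (c : ∀ j, ℕ → E j) (j : ℕ) : us c j (ps c j) = 1 := by
  unfold us ps
  rw [ub_br, if_pos rfl]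

lemma mergeN_dupN {A : Type*} [Mul A] {i : ℕ} (z : ℕ → A) (h : z i * z i = z i) :
    mergeN i (dupN i z) = z := by
  funext k
  rcases lt_trichotomy k i with hk | hk | hk
  · rw [mergeN_lt _ hk, dupN_le _ hk.le]
  · subst hk
    rw [mergeN_eq, dupN_le _ le_rfl, dupN_gt _ (by omega), Nat.add_sub_cancel, h]
  · rw [mergeN_gt _ hk, dupN_gt _ (by omega), Nat.add_sub_cancel]

lemma dupN_dupN {α : Type*} {i j : ℕ} (hij : i < j) (u : ℕ → α) :
    dupN i (dupN j u) = dupN (j + 1) (dupN i u) := by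
  funext k
  rcases le_or_gt k i with h | h
  · rw [dupN_le _ h, dupN_le _ (by omega), dupN_le _ (by omega), dupN_le _ h]
  · rw [dupN_gt _ h]
    rcases le_or_gt k (j + 1) with h' | h'
    · rw [dupN_le _ (by omega), dupN_le _ h', dupN_gt _ h]
    · rw [dupN_gt _ (by omega), dupN_gt _ h', dupN_gt _ (by omega)]

/-- Inserting three entries. -/
def ins3 {α : Type*} (j : ℕ) (p q r : α) (c : ℕ → α) : ℕ → α := fun k =>
  if k < j then c k else if k = j then p else if k = j + 1 then q else if k = j + 2 then r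
    else c (k - 2)

section M

variable {m : ℕ} {g : (Fin (m + 1) → C(Om (Σ j, E j), ℂ)) → XX (Σ j, E j) m}
  (hg : IsCochain (m + 1) g)
  (hcob : ∀ a, coboundary (trivAct (eps (Σ j, E j))) g a = cocy a)

include hg hcob in
/-- The balancing relation. -/
lemma Kf_bal (c : ∀ j, ℕ → E j) {j : ℕ} (hj : j < m) (ψ : VM (Σ j, E j) m)
    {a b d : C(Om (Σ j, E j), ℂ)} (ha : Jb j a) (hb : Jb j b) (hd : Jb j d) :
    Kf g ψ (res (m + 1) (ins2 j (a * b) d (us c))) =
      Kf g ψ (res (m + 1) (ins2 j a (b * d) (us c))) := by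
  set x := ins3 j a b d (us c) with hx
  have x1 : ∀ k, k < j → x k = us c k := fun k hk => by simp [hx, ins3, hk]
  have x2 : x j = a := by simp [hx, ins3]
  have x3 : x (j + 1) = b := by simp [hx, ins3]
  have x4 : x (j + 2) = d := by simp [hx, ins3]
  have x5 : ∀ k, j + 2 < k → x k = us c (k - 2) := fun k hk => by
    have h1 : ¬ k < j := by omega
    have h2 : k ≠ j := by omega
    have h3 : k ≠ j + 1 := by omega
    have h4 : k ≠ j + 2 := by omega
    simp [hx, ins3, h1, h2, h3, h4]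
  have hinf : ∀ k, x k inft = 0 := by
    intro k
    rcases lt_trichotomy k j with h | h | h
    · rw [x1 k h]; exact us_inft _ _
    · subst h; rw [x2]; exact ha.1
    · by_cases h1 : k = j + 1
      · subst h1; rw [x3]; exact hb.1
      by_cases h2 : k = j + 2
      · subst h2; rw [x4]; exact hd.1
      rw [x5 k (by omega)]; exact us_inft _ _
  have hbar := barD_Kf hcob ψ (x := res (m + 2) x) (fun k => hinf k)
  unfold barD at hbar
  simp only [mergeAt_res] at hbar
  have hzero : ∀ i, i < m + 1 → i ≠ j → i ≠ j + 1 → Kf g ψ (res (m + 1) (mergeN i x)) = 0 := by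
    intro i hi h1 h2
    apply (Kf_multilin hg ψ).zero_of hi
    rw [mergeN_eq]
    rcases Nat.lt_or_ge i j with h | h
    · rcases Nat.lt_or_ge (i + 1) j with h' | h'
      · rw [x1 i h, x1 _ h']
        exact us_mul (by omega)
      · have : i + 1 = j := by omega
        rw [x1 i h, this, x2, mul_comm]
        exact ha.2 i (by omega) (c i)
    · by_cases h3 : i = j + 2
      · subst h3
        rw [x4, x5 _ (by omega)]
        have : j + 2 + 1 - 2 = j + 1 := by omega
        rw [this]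
        exact hd.2 (j + 1) (by omega) (c (j + 1))
      · rw [x5 i (by omega), x5 (i + 1) (by omega)]
        exact us_mul (by omega)
  have hj1 : mergeN j x = ins2 j (a * b) d (us c) := by
    funext k
    rcases lt_trichotomy k j with h | h | h
    · rw [mergeN_lt _ h, x1 k h, ins2_lt _ _ _ h]
    · subst h
      rw [mergeN_eq, x2, x3, ins2_fst]
    · rw [mergeN_gt _ h]
      by_cases h1 : k = j + 1
      · subst h1; rw [x4, ins2_snd]
      · rw [x5 _ (by omega), ins2_gt _ _ _ (by omega)]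
        congr 1
  have hj2 : mergeN (j + 1) x = ins2 j a (b * d) (us c) := by
    funext k
    rcases lt_trichotomy k (j + 1) with h | h | h
    · rw [mergeN_lt _ h]
      by_cases h1 : k = j
      · subst h1; rw [x2, ins2_fst]
      · rw [x1 k (by omega), ins2_lt _ _ _ (by omega)]
    · subst h
      rw [mergeN_eq, x3, x4, ins2_snd]
    · rw [mergeN_gt _ h, x5 _ (by omega), ins2_gt _ _ _ h]
      congr 1
  have hsum : ∑ i ∈ range (m + 1), (-1 : ℂ) ^ (i + 1) • Kf g ψ (res (m + 1) (mergeN i x)) =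
      (-1 : ℂ) ^ (j + 1) • Kf g ψ (res (m + 1) (mergeN j x)) +
      (-1 : ℂ) ^ (j + 1 + 1) • Kf g ψ (res (m + 1) (mergeN (j + 1) x)) := by
    have hsub : ({j, j + 1} : Finset ℕ) ⊆ range (m + 1) := by
      intro i hi
      rw [mem_insert, mem_singleton] at hi
      rw [mem_range]
      omega
    rw [← sum_subset hsub, sum_pair (by omega)]
    intro i hi hi2
    rw [mem_insert, mem_singleton, not_or] at hi2
    rw [hzero i (mem_range.1 hi) hi2.1 hi2.2, smul_zero]
  rw [hsum, hj1, hj2, smul_eq_mul, smul_eq_mul, pow_succ _ (j + 1)] at hbar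
  have hpow : ((-1 : ℂ)) ^ (j + 1) ≠ 0 := pow_ne_zero _ (by norm_num)
  have h7 : (-1 : ℂ) ^ (j + 1) * (Kf g ψ (res (m + 1) (ins2 j (a * b) d (us c))) -
    Kf g ψ (res (m + 1) (ins2 j a (b * d) (us c)))) = 0 := by
    linear_combination hbar
  exact sub_eq_zero.1 ((mul_eq_zero.1 h7).resolve_left hpow)

include hg hcob in
/-- Independence of the doubled entry, up to sign. -/
lemma Kf_swap (c : ∀ j, ℕ → E j) {i j : ℕ} (hi : i < j) (hj : j < m) (ψ : VM (Σ j, E j) m) :
    (-1 : ℂ) ^ j * Kf g ψ (res (m + 1) (dupN j (us c))) =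
      (-1 : ℂ) ^ i * Kf g ψ (res (m + 1) (dupN i (us c))) := by
  set x := dupN i (dupN j (us c)) with hx
  have x1 : ∀ k, k ≤ i → x k = us c k := fun k hk => by
    rw [hx, dupN_le _ hk, dupN_le _ (by omega)]
  have x2 : ∀ k, i < k → k ≤ j + 1 → x k = us c (k - 1) := fun k hk hk2 => by
    rw [hx, dupN_gt _ hk, dupN_le _ (by omega)]
  have x3 : ∀ k, j + 1 < k → x k = us c (k - 2) := fun k hk => by
    rw [hx, dupN_gt _ (by omega), dupN_gt _ (by omega)]
    rfl
  have hinf : ∀ k, x k inft = 0 := by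
    intro k
    rcases le_or_gt k i with h | h
    · rw [x1 k h]; exact us_inft _ _
    · rcases le_or_gt k (j + 1) with h' | h'
      · rw [x2 k h h']; exact us_inft _ _
      · rw [x3 k h']; exact us_inft _ _
  have hbar := barD_Kf hcob ψ (x := res (m + 2) x) (fun k => hinf k)
  unfold barD at hbar
  simp only [mergeAt_res] at hbar
  have hzero : ∀ k, k < m + 1 → k ≠ i → k ≠ j + 1 → Kf g ψ (res (m + 1) (mergeN k x)) = 0 := by
    intro k hk h1 h2
    apply (Kf_multilin hg ψ).zero_of hk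
    rw [mergeN_eq]
    rcases Nat.lt_or_ge k i with h | h
    · rw [x1 k (by omega), x1 _ (by omega)]
      exact us_mul (by omega)
    · rcases le_or_gt (k + 1) (j + 1) with h' | h'
      · rw [x2 k (by omega) (by omega), x2 _ (by omega) h']
        exact us_mul (by omega)
      · rw [x3 k (by omega), x3 _ (by omega)]
        exact us_mul (by omega)
  have hj1 : mergeN i x = dupN j (us c) := by
    rw [hx]
    apply mergeN_dupN
    rw [dupN_le _ hi.le]
    exact us_sq c i
  have hj2 : mergeN (j + 1) x = dupN i (us c) := by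
    rw [hx, dupN_dupN hi]
    apply mergeN_dupN
    rw [dupN_gt _ (by omega), Nat.add_sub_cancel]
    exact us_sq c j
  have hsum : ∑ k ∈ range (m + 1), (-1 : ℂ) ^ (k + 1) • Kf g ψ (res (m + 1) (mergeN k x)) =
      (-1 : ℂ) ^ (i + 1) • Kf g ψ (res (m + 1) (mergeN i x)) +
      (-1 : ℂ) ^ (j + 1 + 1) • Kf g ψ (res (m + 1) (mergeN (j + 1) x)) := by
    have hsub : ({i, j + 1} : Finset ℕ) ⊆ range (m + 1) := by
      intro k hk
      rw [mem_insert, mem_singleton] at hk
      rw [mem_range]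
      omega
    rw [← sum_subset hsub, sum_pair (by omega)]
    intro k hk hk2
    rw [mem_insert, mem_singleton, not_or] at hk2
    rw [hzero k (mem_range.1 hk) hk2.1 hk2.2, smul_zero]
  rw [hsum, hj1, hj2, smul_eq_mul, smul_eq_mul] at hbar
  have s1 : (-1 : ℂ) ^ i * (-1) ^ i = 1 := by rw [← mul_pow]; norm_num
  have s2 : (-1 : ℂ) ^ j * (-1) ^ j = 1 := by rw [← mul_pow]; norm_num
  have e1 : (-1 : ℂ) ^ (i + 1) = - (-1) ^ i := by ring
  have e2 : (-1 : ℂ) ^ (j + 1 + 1) = (-1) ^ j := by ring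
  rw [e1, e2] at hbar
  linear_combination (-(-1 : ℂ) ^ i * (-1) ^ j) * hbar +
    (-(-1 : ℂ) ^ j * Kf g ψ (res (m + 1) (dupN j (us c)))) * s1 +
    ((-1 : ℂ) ^ i * Kf g ψ (res (m + 1) (dupN i (us c)))) * s2

/-- The numbers `τ_j`. -/
def tau (g : (Fin (m + 1) → C(Om (Σ j, E j), ℂ)) → XX (Σ j, E j) m) (c : ∀ j, ℕ → E j)
    (j : ℕ) : ℂ := Kf g (phi m (dupN j (ps c))) (res (m + 1) (dupN j (us c)))

include hg hcob in
/-- The numbers `τ_j` add up to one. -/
lemma sum_tau (hm : 0 < m) (c : ∀ j, ℕ → E j) : ∑ j ∈ range m, tau g c j = 1 := by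
  have h1 : Kf g (psi m (ps c)) (res (m + 1) (dupN 0 (us c))) = -1 := by
    rw [Kf_psi, ev_psi]
    unfold barD
    rw [sum_eq_single 0]
    · rw [mergeAt_res, mergeN_dupN _ (us_sq c 0), phi'_res, prod_eq_one]
      · simp
      · intro k _
        exact us_ps c k
    · intro i hi hi0
      rw [mem_range] at hi
      rw [mergeAt_res, phi'_res, prod_eq_zero (mem_range.2 hi), smul_zero]
      rw [mergeN_eq, dupN_gt _ (by omega), dupN_gt _ (by omega), us_mul (by omega)]
      rfl
    · intro h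
      exact absurd (mem_range.2 hm) h
  unfold psi at h1
  rw [Kf_sum] at h1
  have h2 : ∀ i ∈ range m, Kf g ((-1 : ℂ) ^ (i + 1) • phi m (dupN i (ps c)))
      (res (m + 1) (dupN 0 (us c))) = - tau g c i := by
    intro i hi
    rw [Kf_smul]
    rcases Nat.eq_zero_or_pos i with h0 | h0
    · subst h0
      unfold tau
      ring
    · have := Kf_swap hg hcob c h0 (mem_range.1 hi) (phi m (dupN i (ps c)))
      rw [pow_zero, one_mul] at this
      rw [← this]
      have s1 : (-1 : ℂ) ^ i * (-1) ^ i = 1 := by rw [← mul_pow]; norm_num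
      unfold tau
      rw [pow_succ]
      linear_combination (-Kf g (phi m (dupN i (ps c))) (res (m + 1) (dupN i (us c)))) * s1
  rw [sum_congr rfl h2, sum_neg_distrib] at h1
  linear_combination -h1

lemma ins2_eq_dupN {α : Type*} (j : ℕ) (c : ℕ → α) : ins2 j (c j) (c j) c = dupN j c := by
  funext k
  rcases lt_trichotomy k j with h | h | h
  · rw [ins2_lt _ _ _ h, dupN_le _ h.le]
  · subst h
    rw [ins2_fst, dupN_le _ le_rfl]
  · rw [dupN_gt _ h]
    by_cases h1 : k = j + 1
    · subst h1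
      rw [ins2_snd, Nat.add_sub_cancel]
    · rw [ins2_gt _ _ _ (by omega)]

lemma ins2_congr {α : Type*} {j : ℕ} (p q : α) {c c' : ℕ → α} (h : ∀ k, k ≠ j → c k = c' k) :
    ins2 j p q c = ins2 j p q c' := by
  funext k
  rcases lt_trichotomy k j with hk | hk | hk
  · rw [ins2_lt _ _ _ hk, ins2_lt _ _ _ hk, h k (by omega)]
  · subst hk
    rw [ins2_fst, ins2_fst]
  · by_cases h1 : k = j + 1
    · subst h1
      rw [ins2_snd, ins2_snd]
    · rw [ins2_gt _ _ _ (by omega), ins2_gt _ _ _ (by omega), h (k - 1) (by omega)]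

include hg hcob in
/-- The data for the core lemma. -/
lemma bal_of (c : ∀ j, ℕ → E j) {j : ℕ} (hj : j < m) : ∃ C : ℝ,
    Bal (io j : E j → (Σ j, E j)) (Jb j) (fun p q => phi m (ins2 j p q (ps c)))
      (fun a b ψ => Kf g ψ (res (m + 1) (ins2 j a b (us c)))) C := by
  obtain ⟨C, hC0, hC⟩ := Kf_bound hg
  have hinf : ∀ a b : C(Om (Σ j, E j), ℂ), Jb j a → Jb j b →
      ∀ k < m + 1, ins2 j a b (us c) k inft = 0 := by
    intro a b ha hb k _
    rcases lt_trichotomy k j with h | h | h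
    · rw [ins2_lt _ _ _ h]; exact us_inft _ _
    · subst h; rw [ins2_fst]; exact ha.1
    · by_cases h1 : k = j + 1
      · subst h1; rw [ins2_snd]; exact hb.1
      · rw [ins2_gt _ _ _ (by omega)]; exact us_inft _ _
  refine ⟨C, ?_⟩
  constructor
  · intro N y z s S hS hs
    exact hilb_phi (by omega) (ps c) N y z s S hS hs
  · intro a b ha hb
    refine ⟨by rw [ContinuousMap.add_apply, ha.1, hb.1, add_zero], fun i hi d => ?_⟩
    rw [add_mul, ha.2 i hi d, hb.2 i hi d, add_zero]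
  · intro k a ha
    refine ⟨by rw [ContinuousMap.smul_apply, ha.1, smul_zero], fun i hi d => ?_⟩
    rw [smul_mul_assoc, ha.2 i hi d, smul_zero]
  · intro d
    exact ⟨ub_inft _, fun i hi e => ub_mul_ub (Ne.symm hi) _ _⟩
  · intro d n
    exact ⟨dl_inft _, fun i hi e => dl_mul_ub_ne (Ne.symm hi) _ _ _⟩
  · intro a a' b ψ
    rw [← ins2_update_fst j (a + a') b 0, ← ins2_update_fst j a b 0, ← ins2_update_fst j a' b 0]
    exact (Kf_multilin hg ψ).update_add _ (by omega) _ _
  · intro k a b ψ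
    rw [← ins2_update_fst j (k • a) b 0, ← ins2_update_fst j a b 0]
    exact (Kf_multilin hg ψ).update_smul _ (by omega) _ _
  · intro a b ψ ψ'
    exact Kf_add _ _ _
  · intro k a b ψ
    exact Kf_smul _ _ _
  · exact hC0
  · intro a b ψ
    have h1 := hC ψ (res (m + 1) (ins2 j a b (us c)))
    have h2 : ∏ i : Fin (m + 1), ‖res (m + 1) (ins2 j a b (us c)) i‖ ≤ ‖a‖ * ‖b‖ := by
      have e1 : ∏ i : Fin (m + 1), ‖res (m + 1) (ins2 j a b (us c)) i‖ =
          ∏ k ∈ range (m + 1), ‖ins2 j a b (us c) k‖ :=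
        Fin.prod_univ_eq_prod_range (fun k => ‖ins2 j a b (us c) k‖) (m + 1)
      have e2 := prod_split (m := m) (j := j) (by omega) (fun k => ‖ins2 j a b (us c) k‖)
      rw [e1, e2, ins2_fst, ins2_snd]
      have e3 : ∏ k ∈ ((range (m + 1)).erase j).erase (j + 1), ‖ins2 j a b (us c) k‖ ≤ 1 := by
        refine prod_le_one (fun _ _ => norm_nonneg _) fun k hk => ?_
        rw [mem_erase, mem_erase] at hk
        rcases Nat.lt_or_ge k j with h | h
        · rw [ins2_lt _ _ _ h]; exact us_norm _ _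
        · rw [ins2_gt _ _ _ (by omega)]; exact us_norm _ _
      calc ‖a‖ * (‖b‖ * ∏ k ∈ ((range (m + 1)).erase j).erase (j + 1), ‖ins2 j a b (us c) k‖)
          ≤ ‖a‖ * (‖b‖ * 1) := by gcongr
        _ = ‖a‖ * ‖b‖ := by ring
    calc ‖Kf g ψ (res (m + 1) (ins2 j a b (us c)))‖ ≤ C * ‖ψ‖ *
          ∏ i : Fin (m + 1), ‖res (m + 1) (ins2 j a b (us c)) i‖ := h1
      _ ≤ C * ‖ψ‖ * (‖a‖ * ‖b‖) := by gcongr
      _ = C * ‖a‖ * ‖b‖ * ‖ψ‖ := by ring
  · intro a b d ψ ha hb hd
    exact Kf_bal hg hcob c hj ψ ha hb hd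
  · intro a b ha hb q
    have := (Kf_nice (g := g) (hinf a b ha hb) (ins2 j inft q (ps c)) (k := j) (by omega)).1
    simpa only [ins2_update_fst] using this
  · intro a b ha hb q
    have := (Kf_nice (g := g) (hinf a b ha hb) (ins2 j inft q (ps c)) (k := j) (by omega)).2
    simpa only [ins2_update_fst] using this
  · intro a b ha hb p
    have := (Kf_nice (g := g) (hinf a b ha hb) (ins2 j p inft (ps c)) (k := j + 1) (by omega)).1
    simpa only [ins2_update_snd] using this
  · intro a b ha hb p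
    have := (Kf_nice (g := g) (hinf a b ha hb) (ins2 j p inft (ps c)) (k := j + 1) (by omega)).2
    simpa only [ins2_update_snd] using this

include hg hcob in
/-- For all but few branches in block `j` the number `τ_j` vanishes. -/
lemma tau_small [∀ j, Infinite (E j)] (c : ∀ j, ℕ → E j) {j : ℕ} (hj : j < m) :
    Sm {b : ℕ → E j | tau g (Function.update c j b) j ≠ 0} := by
  obtain ⟨C, hC⟩ := bal_of hg hcob c hj
  have h := core hC (io_injective j)
  refine h.mono ?_
  intro b hb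
  simp only [Set.mem_ofPred_eq] at hb ⊢
  have e : th (io j : E j → (Σ j, E j)) (fun p q => phi m (ins2 j p q (ps c)))
      (fun a b ψ => Kf g ψ (res (m + 1) (ins2 j a b (us c)))) b (br (io j ∘ b)) (br (io j ∘ b)) =
      tau g (Function.update c j b) j := by
    unfold th tau
    have u1 : us (Function.update c j b) j = ub (io j ∘ b) := by
      unfold us
      rw [Function.update_self]
    have p1 : ps (Function.update c j b) j = br (io j ∘ b) := by
      unfold ps
      rw [Function.update_self]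
    have u2 : ∀ k, k ≠ j → us c k = us (Function.update c j b) k := by
      intro k hk
      unfold us
      rw [Function.update_of_ne hk]
    have p2 : ∀ k, k ≠ j → ps c k = ps (Function.update c j b) k := by
      intro k hk
      unfold ps
      rw [Function.update_of_ne hk]
    rw [← ins2_eq_dupN, ← ins2_eq_dupN, u1, p1]
    show Kf g (phi m (ins2 j (br (io j ∘ b)) (br (io j ∘ b)) (ps c)))
      (res (m + 1) (ins2 j (ub (io j ∘ b)) (ub (io j ∘ b)) (us c))) = _
    rw [ins2_congr _ _ u2, ins2_congr _ _ p2]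
  rw [e]
  exact hb

end M

end Blocks

end

end Pool.Agent.Helper5.Sym
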